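import Pool.Agent.X306.MT.Ode

set_option autoImplicit false
set_option linter.unusedVariables false
set_option linter.unusedSectionVars false
set_option linter.unusedSimpArgs false

/-!
# Limits of exponentials
-/

open Matrix Filter Topology

noncomputable section

namespace Pool.Agent.X306.MT

variable {B S : Type} [Fintype B] [DecidableEq B] {d : B → ℕ} {N : S → Matrix B B ℂ}

/-- entrywise limits -/
def Lim (X : ℕ → Matrix B B ℂ) (L : Matrix B B ℂ) : Prop :=
  ∀ b b', Tendsto (fun j => X j b b') atTop (𝓝 (L b b'))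

theorem Lim.mul {X Y : ℕ → Matrix B B ℂ} {L M : Matrix B B ℂ} (hX : Lim X L) (hY : Lim Y M) :
    Lim (fun j => X j * Y j) (L * M) := by
  intro b b'
  simp only [Matrix.mul_apply]
  exact tendsto_finset_sum _ fun c _ => (hX b c).mul (hY c b')

theorem Lim.pow {X : ℕ → Matrix B B ℂ} {L : Matrix B B ℂ} (hX : Lim X L) (n : ℕ) :
    Lim (fun j => X j ^ n) (L ^ n) := by
  induction n with
  | zero =>
    intro b b'
    simp only [pow_zero]
    exact tendsto_const_nhds
  | succ n ih =>
    simp only [pow_succ]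
    exact ih.mul hX

theorem Lim.ex {X : ℕ → Matrix B B ℂ} {L : Matrix B B ℂ} (hX : Lim X L) :
    Lim (fun j => MT.ex d (X j)) (MT.ex d L) := by
  intro b b'
  unfold MT.ex ee
  simp only [Matrix.sum_apply, Matrix.smul_apply, smul_eq_mul]
  exact tendsto_finset_sum _ fun n _ => (hX.pow n b b').const_mul _

/-- functionals -/
theorem Lim.fun {X : ℕ → Matrix B B ℂ} {L : Matrix B B ℂ} (hX : Lim X L) (φ : Matrix B B ℂ →ₗ[ℂ] ℂ) :
    Tendsto (fun j => φ (X j)) atTop (𝓝 (φ L)) := by
  have h1 : ∀ X : Matrix B B ℂ, φ X = ∑ b, ∑ b', φ (Matrix.single b b' 1) * X b b' := by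
    intro X
    conv_lhs => rw [Matrix.matrix_eq_sum_single X]
    rw [map_sum]
    refine Finset.sum_congr rfl fun b _ => ?_
    rw [map_sum]
    refine Finset.sum_congr rfl fun b' _ => ?_
    have h2 : Matrix.single b b' (X b b') = X b b' • Matrix.single b b' (1 : ℂ) := by
      rw [Matrix.smul_single, smul_eq_mul, mul_one]
    rw [h2, map_smul, smul_eq_mul, mul_comm]
  have h2 : (fun j => φ (X j)) = fun j => ∑ b, ∑ b', φ (Matrix.single b b' 1) * X j b b' := funext fun j => h1 _
  rw [h2, h1]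
  exact tendsto_finset_sum _ fun b _ => tendsto_finset_sum _ fun b' _ => (hX b b').const_mul _

theorem Lim.mem {X : ℕ → Matrix B B ℂ} {L : Matrix B B ℂ} (hX : Lim X L) (W : Submodule ℂ (Matrix B B ℂ))
    (h : ∀ j, X j ∈ W) : L ∈ W := by
  by_contra hcon
  obtain ⟨φ, h1, h2⟩ := Submodule.exists_le_ker_of_notMem hcon
  apply h1
  have h3 := hX.fun φ
  have h4 : (fun j => φ (X j)) = fun _ => 0 := funext fun j => h2 (h j)
  rw [h4] at h3
  exact (tendsto_nhds_unique h3 tendsto_const_nhds)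

/-- convergence of the entries up to the degree `k` -/
def Cnv (d : B → ℕ) (k : ℕ) (X : ℕ → Matrix B B ℂ) : Prop :=
  ∀ b b', d b' ≤ d b + k → ∃ z, Tendsto (fun j => X j b b') atTop (𝓝 z)

theorem Cnv.mul {k : ℕ} {X Y : ℕ → Matrix B B ℂ} (hX : ∀ j, X j ∈ Ge d 1) (hY : ∀ j, Y j ∈ Ge d 1)
    (h : Cnv d k X) (h' : Cnv d k Y) : Cnv d (k + 1) fun j => X j * Y j := by
  intro b b' hb
  have h1 : ∀ c : B, ∃ z, Tendsto (fun j => X j b c * Y j c b') atTop (𝓝 z) := by
    intro c
    rcases lt_or_ge (d c) (d b + 1) with h2 | h2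
    · have h3 : (fun j => X j b c * Y j c b') = fun _ => 0 := by
        funext j
        rw [hX j b c h2, zero_mul]
      rw [h3]
      exact ⟨0, tendsto_const_nhds⟩
    · rcases lt_or_ge (d b') (d c + 1) with h4 | h4
      · have h3 : (fun j => X j b c * Y j c b') = fun _ => 0 := by
          funext j
          rw [hY j c b' h4, mul_zero]
        rw [h3]
        exact ⟨0, tendsto_const_nhds⟩
      · obtain ⟨z, hz⟩ := h b c (by omega)
        obtain ⟨z', hz'⟩ := h' c b' (by omega)
        exact ⟨z * z', hz.mul hz'⟩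
  choose z hz using h1
  refine ⟨∑ c, z c, ?_⟩
  simp only [Matrix.mul_apply]
  exact tendsto_finset_sum _ fun c _ => hz c

theorem Cnv.mono {k k' : ℕ} (hk : k' ≤ k) {X : ℕ → Matrix B B ℂ} (h : Cnv d k X) : Cnv d k' X :=
  fun b b' hb => h b b' (by omega)

theorem Cnv.pow {k : ℕ} {X : ℕ → Matrix B B ℂ} (hX : ∀ j, X j ∈ Ge d 1) (h : Cnv d k X) (n : ℕ) :
    Cnv d k fun j => X j ^ (n + 1) := by
  induction n with
  | zero =>
    simp only [zero_add, pow_one]
    exact h
  | succ n ih =>
    simp only [pow_succ _ (n + 1)]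
    refine Cnv.mono (Nat.le_succ k) (Cnv.mul (fun j => ?_) hX ih h)
    exact Ge_mono (by rw [mul_one]; omega) (Ge_pow (hX j) (n + 1))

theorem Cnv.exp {k : ℕ} {X : ℕ → Matrix B B ℂ} (hX : ∀ j, X j ∈ Ge d 1) {L : Matrix B B ℂ}
    (hL : Lim (fun j => MT.ex d (X j)) L) : Cnv d k X := by
  induction k with
  | zero =>
    intro b b' hb
    have h3 : (fun j => X j b b') = fun _ => 0 := by
      funext j
      exact hX j b b' (by omega)
    rw [h3]
    exact ⟨0, tendsto_const_nhds⟩
  | succ k ih =>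
    intro b b' hb
    have h1 : ∀ n : ℕ, ∃ z, Tendsto (fun j => ee (X j) (n + 2) b b') atTop (𝓝 z) := by
      intro n
      have h2 : Cnv d (k + 1) fun j => X j ^ (n + 1) * X j := Cnv.mul (fun j => Ge_mono (by rw [mul_one]; omega)
        (Ge_pow (hX j) (n + 1))) hX (Cnv.pow hX ih n) ih
      obtain ⟨z, hz⟩ := h2 b b' hb
      refine ⟨(((n + 2).factorial : ℂ))⁻¹ * z, ?_⟩
      have h3 : (fun j => ee (X j) (n + 2) b b') =
          fun j => (((n + 2).factorial : ℂ))⁻¹ * (X j ^ (n + 1) * X j) b b' := by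
        funext j
        rw [← pow_succ]
        rfl
      rw [h3]
      exact hz.const_mul _
    choose z hz using h1
    have h2 : ∀ j, X j b b' = MT.ex d (X j) b b' - (1 : Matrix B B ℂ) b b' -
        ∑ n ∈ Finset.range (top d), ee (X j) (n + 2) b b' := by
      intro j
      have h3 : MT.ex d (X j) = ∑ n ∈ Finset.range (top d + 1 + 1), ee (X j) n := by
        unfold MT.ex
        rw [Finset.sum_range_succ _ (top d + 1), Finset.sum_range_succ _ (top d), ee_top (hX j) le_rfl,
          ee_top (hX j) (Nat.le_succ _), add_zero, add_zero]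
      have h4 : ee (X j) 1 = X j := by
        unfold ee
        rw [Nat.factorial_one, Nat.cast_one, inv_one, one_smul, pow_one]
      rw [h3, Finset.sum_range_succ', Finset.sum_range_succ', ee_zero, zero_add, h4, Matrix.add_apply,
        Matrix.add_apply, Matrix.sum_apply]
      ring
    refine ⟨L b b' - (1 : Matrix B B ℂ) b b' - ∑ n ∈ Finset.range (top d), z n, ?_⟩
    rw [funext h2]
    exact ((hL b b').sub tendsto_const_nhds).sub (tendsto_finset_sum _ fun n _ => hz n)

/-- **Limits of exponentials are exponentials.** -/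
theorem exp_closed [Fintype S] (hN : Deg1 d N) {Z : ℕ → Matrix B B ℂ} (hZ : ∀ j, Z j ∈ nn N) {L : Matrix B B ℂ}
    (hL : Lim (fun j => MT.ex d (Z j)) L) {l : ℕ → S → ℂ} {m : S → ℂ} (hl : ∀ s, Tendsto (fun j => l j s) atTop (𝓝 (m s)))
    (h1 : ∀ j, Z j - ∑ s, l j s • N s ∈ Ge d 2) :
    ∃ ell ∈ nn N, L = MT.ex d ell ∧ ell - ∑ s, m s • N s ∈ Ge d 2 := by
  have h2 : Cnv d (top d) Z := Cnv.exp (fun j => nn_Ge hN (hZ j)) hL
  choose E hE using fun b b' => h2 b b' (by have := le_top (d := d) b'; omega)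
  have h3 : Lim Z (Matrix.of E) := hE
  refine ⟨Matrix.of E, h3.mem _ hZ, ?_, ?_⟩
  · ext b b'
    exact tendsto_nhds_unique (hL b b') (h3.ex b b')
  · have h4 : Lim (fun j => Z j - ∑ s, l j s • N s) (Matrix.of E - ∑ s, m s • N s) := by
      intro b b'
      simp only [Matrix.sub_apply, Matrix.sum_apply, Matrix.smul_apply, smul_eq_mul]
      exact (h3 b b').sub (tendsto_finset_sum _ fun s _ => (hl s).mul_const _)
    exact h4.mem _ h1

end Pool.Agent.X306.MT
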