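import Pool.Agent.X306.MT.Exp
import Pool.Agent.X306.PL.Lie

set_option autoImplicit false
set_option linter.unusedVariables false
set_option linter.unusedSectionVars false
set_option linter.unusedSimpArgs false

/-!
# The Betti form of the Lie algebra and its normalizer
-/

open Matrix Module

noncomputable section

namespace Pool.Agent.X306.MT

open Pool.Agent.W516.DR Pool.Agent.W245.EB Pool.Agent.Y102
open Pool.Agent.X306.EM (QB_iff)
open Pool.Agent.X306.RL (LL_br derD)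
open Pool.Agent.X306.PL (dB baker_span path_mem)

variable {B S : Type} [Fintype B] [DecidableEq B] {d : B → ℕ} {N : S → Matrix B B ℂ} {C : Matrix B B ℂ} {w : ℂ}

/-- the Betti form of the Lie algebra -/
def nB (C : Matrix B B ℂ) (N : S → Matrix B B ℂ) : Submodule ℂ (Matrix B B ℂ) where
  carrier := {M | C⁻¹ * M * C ∈ nn N}
  zero_mem' := by
    change C⁻¹ * 0 * C ∈ nn N
    rw [Matrix.mul_zero, Matrix.zero_mul]
    exact (nn N).zero_mem
  add_mem' := by
    intro X Y hX hY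
    change C⁻¹ * (X + Y) * C ∈ nn N
    rw [Matrix.mul_add, Matrix.add_mul]
    exact (nn N).add_mem hX hY
  smul_mem' := by
    intro a X hX
    change C⁻¹ * (a • X) * C ∈ nn N
    rw [Matrix.mul_smul, Matrix.smul_mul]
    exact (nn N).smul_mem a hX

theorem mem_nB {M : Matrix B B ℂ} : M ∈ nB C N ↔ C⁻¹ * M * C ∈ nn N := Iff.rfl

theorem conj_nB (hC : Tri d w C) {x : Matrix B B ℂ} (hx : x ∈ nn N) : C * x * C⁻¹ ∈ nB C N := by
  rw [mem_nB]
  have h1 : C⁻¹ * (C * x * C⁻¹) * C = (C⁻¹ * C) * x * (C⁻¹ * C) := by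
    simp only [Matrix.mul_assoc]
  rw [h1, hC.inv_mul, Matrix.one_mul, Matrix.mul_one]
  exact hx

theorem nB_conj (hC : Tri d w C) (M : Matrix B B ℂ) : C * (C⁻¹ * M * C) * C⁻¹ = M := by
  have h1 : C * (C⁻¹ * M * C) * C⁻¹ = (C * C⁻¹) * M * (C * C⁻¹) := by
    simp only [Matrix.mul_assoc]
  rw [h1, hC.mul_inv, Matrix.one_mul, Matrix.mul_one]

theorem nB_br (hC : Tri d w C) {X Y : Matrix B B ℂ} (hX : X ∈ nB C N) (hY : Y ∈ nB C N) :
    X * Y - Y * X ∈ nB C N := by
  rw [mem_nB] at hX hY ⊢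
  have h1 := nn_br hX hY
  refine (congrArg (· ∈ nn N) ?_).mp h1
  have h2 : ∀ X Y : Matrix B B ℂ, (C⁻¹ * X * C) * (C⁻¹ * Y * C) = C⁻¹ * (X * Y) * C := by
    intro X Y
    have h3 : (C⁻¹ * X * C) * (C⁻¹ * Y * C) = C⁻¹ * X * (C * C⁻¹) * (Y * C) := by
      simp only [Matrix.mul_assoc]
    rw [h3, hC.mul_inv, Matrix.mul_one]
    simp only [Matrix.mul_assoc]
  rw [h2, h2, Matrix.mul_sub, Matrix.sub_mul]

theorem nB_Ge (hC : Tri d w C) (hN : Deg1 d N) {M : Matrix B B ℂ} (hM : M ∈ nB C N) : M ∈ Ge d 1 := by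
  have h1 := hC.conj_mem (nn_Ge hN hM)
  rwa [nB_conj hC] at h1

/-- matrices with algebraic entries -/
def AlgM (M : Matrix B B ℂ) : Prop := ∀ b b', IsAlgebraic ℚ (M b b')

/-- the Betti form is defined over the algebraic numbers -/
def DefB (C : Matrix B B ℂ) (N : S → Matrix B B ℂ) : Prop :=
  ∀ M ∈ nB C N, M ∈ Submodule.span ℂ {M' : Matrix B B ℂ | M' ∈ nB C N ∧ AlgM M'}

theorem f_mul (f : ℂ →ₗ[QB] ℂ) (z : ℂ) {a : ℂ} (ha : IsAlgebraic ℚ a) : f (z * a) = f z * a := by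
  have h1 : z * a = (⟨a, (QB_iff a).1 ha⟩ : QB) • z := mul_comm z a
  rw [h1, map_smul]
  exact mul_comm a (f z)

theorem f_mul' (f : ℂ →ₗ[QB] ℂ) (z : ℂ) {a : ℂ} (ha : IsAlgebraic ℚ a) : f (a * z) = a * f z := by
  rw [mul_comm, f_mul f z ha, mul_comm]

/-- the Betti form is closed under linear maps over the algebraic numbers -/
theorem nB_map (hB : DefB C N) {M : Matrix B B ℂ} (hM : M ∈ nB C N) (f : ℂ →ₗ[QB] ℂ) : M.map f ∈ nB C N := by
  have h1 := hB M hM
  clear hM
  induction h1 using Submodule.span_induction generalizing f with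
  | mem M hM =>
    have h2 : M.map f = f 1 • M := by
      ext b b'
      rw [Matrix.map_apply, Matrix.smul_apply, smul_eq_mul, ← f_mul f 1 (hM.2 b b'), one_mul]
    rw [h2]
    exact (nB C N).smul_mem _ hM.1
  | zero =>
    have h2 : (0 : Matrix B B ℂ).map f = 0 := by
      ext b b'
      exact map_zero f
    rw [h2]
    exact (nB C N).zero_mem
  | add M M' _ _ h2 h3 =>
    have h4 : (M + M').map f = M.map f + M'.map f := by
      ext b b'
      simp only [Matrix.map_apply, Matrix.add_apply, map_add]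
    rw [h4]
    exact (nB C N).add_mem (h2 f) (h3 f)
  | smul a M _ h2 =>
    have h4 : (a • M).map f = M.map (f.comp (LinearMap.mulLeft QB a)) := by
      ext b b'
      rfl
    rw [h4]
    exact h2 _

/-- the normalizer of the Betti form -/
def Nor (C : Matrix B B ℂ) (N : S → Matrix B B ℂ) : Submodule ℂ (Matrix B B ℂ) where
  carrier := {Y | ∀ M ∈ nB C N, Y * M - M * Y ∈ nB C N}
  zero_mem' := by
    intro M hM
    rw [Matrix.mul_zero, Matrix.zero_mul, sub_zero]
    exact (nB C N).zero_mem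
  add_mem' := by
    intro X Y hX hY M hM
    refine (congrArg (· ∈ nB C N) ?_).mp ((nB C N).add_mem (hX M hM) (hY M hM))
    rw [Matrix.mul_add, Matrix.add_mul]
    abel
  smul_mem' := by
    intro a X hX M hM
    refine (congrArg (· ∈ nB C N) ?_).mp ((nB C N).smul_mem a (hX M hM))
    rw [Matrix.mul_smul, Matrix.smul_mul, smul_sub]

theorem mem_Nor {Y : Matrix B B ℂ} : Y ∈ Nor C N ↔ ∀ M ∈ nB C N, Y * M - M * Y ∈ nB C N := Iff.rfl

theorem Nor_of_alg (hB : DefB C N) {Y : Matrix B B ℂ} (h : ∀ M ∈ nB C N, AlgM M → Y * M - M * Y ∈ nB C N) :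
    Y ∈ Nor C N := by
  rw [mem_Nor]
  intro M hM
  have h1 := hB M hM
  clear hM
  induction h1 using Submodule.span_induction with
  | mem M hM => exact h M hM.1 hM.2
  | zero =>
    rw [Matrix.mul_zero, Matrix.zero_mul, sub_zero]
    exact (nB C N).zero_mem
  | add M M' _ _ h2 h3 =>
    refine (congrArg (· ∈ nB C N) ?_).mp ((nB C N).add_mem h2 h3)
    rw [Matrix.mul_add, Matrix.add_mul]
    abel
  | smul a M _ h2 =>
    refine (congrArg (· ∈ nB C N) ?_).mp ((nB C N).smul_mem a h2)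
    rw [Matrix.mul_smul, Matrix.smul_mul, smul_sub]

theorem Nor_map (hB : DefB C N) {Y : Matrix B B ℂ} (hY : Y ∈ Nor C N) (f : ℂ →ₗ[QB] ℂ) : Y.map f ∈ Nor C N := by
  refine Nor_of_alg hB fun M hM hA => ?_
  have h1 := nB_map hB (hY M hM) f
  refine (congrArg (· ∈ nB C N) ?_).mp h1
  ext b b'
  simp only [Matrix.map_apply, Matrix.sub_apply, Matrix.mul_apply, map_sub, map_sum]
  congr 1
  · exact Finset.sum_congr rfl fun c _ => f_mul f _ (hA _ _)
  · exact Finset.sum_congr rfl fun c _ => f_mul' f _ (hA _ _)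

theorem Nor_br {X Y : Matrix B B ℂ} (hX : X ∈ Nor C N) (hY : Y ∈ Nor C N) : X * Y - Y * X ∈ Nor C N := by
  intro M hM
  have h1 := (nB C N).sub_mem (hX _ (hY M hM)) (hY _ (hX M hM))
  refine (congrArg (· ∈ nB C N) ?_).mp h1
  simp only [Matrix.mul_sub, Matrix.sub_mul, Matrix.mul_assoc]
  abel

/-- a derivation over the algebraic numbers vanishes on them -/
theorem D_alg (D : Derivation QBar ℂ ℂ) {a : ℂ} (ha : IsAlgebraic ℚ a) : D a = 0 :=
  D.map_algebraMap (⟨a, (QB_iff a).1 ha⟩ : QBar)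

/-- the logarithmic derivative lies in the normalizer -/
theorem Nor_der (hC : Tri d w C) (hA : ∀ s, AlgM (N s)) (hB : DefB C N) (D : Derivation QBar ℂ ℂ) :
    C.map D * C⁻¹ ∈ Nor C N := by
  refine Nor_of_alg hB fun M hM hMA => ?_
  set D' : Derivation ℚ ℂ ℂ := D.restrictScalars ℚ with hD'
  have hmap : ∀ X : Matrix B B ℂ, X.map D = X.map D' := fun X => rfl
  rw [hmap]
  set x : Matrix B B ℂ := C⁻¹ * M * C with hx
  have hxm : x ∈ nn N := hM
  have h1 : M * C = C * x := by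
    rw [hx, ← Matrix.mul_assoc, ← Matrix.mul_assoc, hC.mul_inv, Matrix.one_mul]
  have h2 : (M * C).map D' = (C * x).map D' := by rw [h1]
  rw [map_mul_D, map_mul_D] at h2
  have h3 : M.map D' = 0 := by
    ext b b'
    exact D_alg D (hMA b b')
  rw [h3, Matrix.zero_mul, zero_add] at h2
  -- `M * DC = DC * x + C * Dx`
  have h4 : x.map D' ∈ nn N := nn_der D' (fun s b b' => D_alg D (hA s b b')) hxm
  have h5 := (nB C N).neg_mem (conj_nB hC h4)
  refine (congrArg (· ∈ nB C N) ?_).mp h5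
  have h6 : x * C⁻¹ = C⁻¹ * M := by
    rw [hx, Matrix.mul_assoc, hC.mul_inv, Matrix.mul_one]
  have h7 : M * (C.map D' * C⁻¹) = C.map D' * C⁻¹ * M + C * x.map D' * C⁻¹ := by
    rw [← Matrix.mul_assoc, h2, Matrix.add_mul, Matrix.mul_assoc _ x, h6, Matrix.mul_assoc, Matrix.mul_assoc]
  rw [h7]
  abel

end Pool.Agent.X306.MT
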