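import Pool.Agent.X306.MT.Nil

set_option autoImplicit false
set_option linter.unusedVariables false
set_option linter.unusedSectionVars false
set_option linter.unusedSimpArgs false

/-!
# Exponentials
-/

open Matrix

noncomputable section

namespace Pool.Agent.X306.MT

variable {B S : Type} [Fintype B] [DecidableEq B] {d : B → ℕ} {N : S → Matrix B B ℂ}

/-- the terms of the exponential -/
def ee (X : Matrix B B ℂ) (k : ℕ) : Matrix B B ℂ := ((k.factorial : ℂ))⁻¹ • X ^ k

theorem ee_zero (X : Matrix B B ℂ) : ee X 0 = 1 := by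
  unfold ee
  rw [Nat.factorial_zero, Nat.cast_one, inv_one, one_smul, pow_zero]

theorem ee_succ (X : Matrix B B ℂ) (k : ℕ) : ((k + 1 : ℕ) : ℂ) • ee X (k + 1) = X * ee X k := by
  unfold ee
  rw [smul_smul, Nat.factorial_succ, pow_succ', Matrix.mul_smul]
  congr 1
  have h1 : ((k + 1 : ℕ) : ℂ) ≠ 0 := Nat.cast_ne_zero.2 (Nat.succ_ne_zero k)
  rw [Nat.cast_mul, mul_inv, mul_inv_cancel_left₀ h1]

theorem ee_comm (X : Matrix B B ℂ) (k : ℕ) : X * ee X k = ee X k * X := by
  unfold ee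
  rw [Matrix.mul_smul, Matrix.smul_mul, ← pow_succ, ← pow_succ']

theorem ee_top {X : Matrix B B ℂ} (hX : X ∈ Ge d 1) {k : ℕ} (hk : top d ≤ k) : ee X k = 0 := by
  unfold ee
  obtain ⟨j, rfl⟩ := Nat.exists_eq_add_of_le hk
  rw [pow_add, pow_top hX, Matrix.zero_mul, smul_zero]

/-- the exponential of a matrix of degree at least one -/
def ex (d : B → ℕ) (X : Matrix B B ℂ) : Matrix B B ℂ := ∑ k ∈ Finset.range (top d), ee X k

section der

variable (D : Derivation ℚ ℂ ℂ)

theorem map_mul_D (x y : Matrix B B ℂ) : (x * y).map D = x.map D * y + x * y.map D := by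
  ext b b'
  simp only [Matrix.map_apply, Matrix.mul_apply, Matrix.add_apply, map_sum, Derivation.leibniz, smul_eq_mul]
  rw [← Finset.sum_add_distrib]
  exact Finset.sum_congr rfl fun c _ => by ring

theorem map_add_D (x y : Matrix B B ℂ) : (x + y).map D = x.map D + y.map D := by
  ext b b'
  simp only [Matrix.map_apply, Matrix.add_apply, map_add]

theorem map_nsmul_D (k : ℕ) (x : Matrix B B ℂ) : ((k : ℂ) • x).map D = (k : ℂ) • x.map D := by
  ext b b'
  simp only [Matrix.map_apply, Matrix.smul_apply, smul_eq_mul, Derivation.leibniz, Derivation.map_natCast,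
    mul_zero, add_zero]

theorem map_sum_D {ι : Type} (s : Finset ι) (f : ι → Matrix B B ℂ) : (∑ i ∈ s, f i).map D = ∑ i ∈ s, (f i).map D := by
  ext b b'
  simp only [Matrix.map_apply, Matrix.sum_apply, map_sum]

theorem map_one_D : (1 : Matrix B B ℂ).map D = 0 := by
  ext b b'
  rw [Matrix.map_apply, Matrix.one_apply]
  split_ifs
  · exact D.map_one_eq_zero
  · exact map_zero D

theorem map_zero_D : (0 : Matrix B B ℂ).map D = 0 := by
  ext b b'
  exact map_zero D

/-- the convolution -/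
def cv (X : Matrix B B ℂ) (k : ℕ) : Matrix B B ℂ :=
  ∑ p ∈ Finset.HasAntidiagonal.antidiagonal k, (ee X p.1).map D * ee (-X) p.2

/-- the convolution without derivative -/
def cw (X : Matrix B B ℂ) (k : ℕ) : Matrix B B ℂ :=
  ∑ p ∈ Finset.HasAntidiagonal.antidiagonal k, ee X p.1 * ee (-X) p.2

theorem cw_zero (X : Matrix B B ℂ) : cw X 0 = 1 := by
  unfold cw
  rw [Finset.Nat.antidiagonal_zero, Finset.sum_singleton, ee_zero, ee_zero, Matrix.one_mul]

theorem split_sum (f : ℕ → Matrix B B ℂ) (g : ℕ → Matrix B B ℂ) (f' g' : ℕ → Matrix B B ℂ)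
    (hf : ∀ k, ((k + 1 : ℕ) : ℂ) • f (k + 1) = f' k) (hg : ∀ k, ((k + 1 : ℕ) : ℂ) • g (k + 1) = g' k) (k : ℕ) :
    ((k + 1 : ℕ) : ℂ) • ∑ p ∈ Finset.HasAntidiagonal.antidiagonal (k + 1), f p.1 * g p.2 =
      ∑ p ∈ Finset.HasAntidiagonal.antidiagonal k, f' p.1 * g p.2 + ∑ p ∈ Finset.HasAntidiagonal.antidiagonal k, f p.1 * g' p.2 := by
  have h1 : ((k + 1 : ℕ) : ℂ) • ∑ p ∈ Finset.HasAntidiagonal.antidiagonal (k + 1), f p.1 * g p.2 =
      ∑ p ∈ Finset.HasAntidiagonal.antidiagonal (k + 1), (p.1 : ℂ) • (f p.1 * g p.2) +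
        ∑ p ∈ Finset.HasAntidiagonal.antidiagonal (k + 1), (p.2 : ℂ) • (f p.1 * g p.2) := by
    rw [Finset.smul_sum, ← Finset.sum_add_distrib]
    refine Finset.sum_congr rfl fun p hp => ?_
    rw [← add_smul, ← Nat.cast_add, Finset.HasAntidiagonal.mem_antidiagonal.1 hp]
  rw [h1]
  congr 1
  · rw [Finset.Nat.antidiagonal_succ, Finset.sum_cons, Nat.cast_zero, zero_smul, zero_add, Finset.sum_map]
    refine Finset.sum_congr rfl fun p _ => ?_
    simp only [Function.Embedding.prodMap, Function.Embedding.coeFn_mk, Prod.map_fst, Prod.map_snd,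
      Function.Embedding.refl_apply]
    rw [← hf, Matrix.smul_mul]
  · rw [Finset.Nat.antidiagonal_succ', Finset.sum_cons, Nat.cast_zero, zero_smul, zero_add, Finset.sum_map]
    refine Finset.sum_congr rfl fun p _ => ?_
    simp only [Function.Embedding.prodMap, Function.Embedding.coeFn_mk, Prod.map_fst, Prod.map_snd,
      Function.Embedding.refl_apply]
    rw [← hg, Matrix.mul_smul]

theorem cw_succ (X : Matrix B B ℂ) (k : ℕ) : cw X (k + 1) = 0 := by
  have h1 := split_sum (ee X) (ee (-X)) (fun k => X * ee X k) (fun k => (-X) * ee (-X) k) (ee_succ X) (ee_succ (-X)) k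
  have h2 : ∑ p ∈ Finset.HasAntidiagonal.antidiagonal k, (X * ee X p.1) * ee (-X) p.2 +
      ∑ p ∈ Finset.HasAntidiagonal.antidiagonal k, ee X p.1 * (-X * ee (-X) p.2) = 0 := by
    rw [← Finset.sum_add_distrib]
    refine Finset.sum_eq_zero fun p _ => ?_
    rw [ee_comm X, Matrix.neg_mul, Matrix.mul_neg, Matrix.mul_assoc]
    exact add_neg_cancel _
  rw [h2] at h1
  have h3 : ((k + 1 : ℕ) : ℂ) ≠ 0 := Nat.cast_ne_zero.2 (Nat.succ_ne_zero k)
  exact (smul_eq_zero.1 h1).resolve_left h3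

theorem cv_zero (X : Matrix B B ℂ) : cv D X 0 = 0 := by
  unfold cv
  rw [Finset.Nat.antidiagonal_zero, Finset.sum_singleton, ee_zero, ee_zero, Matrix.mul_one, map_one_D]

theorem cv_succ (X : Matrix B B ℂ) (k : ℕ) :
    ((k + 1 : ℕ) : ℂ) • cv D X (k + 1) = X * cv D X k - cv D X k * X + X.map D * cw X k := by
  have h1 := split_sum (fun k => (ee X k).map D) (ee (-X)) (fun k => X.map D * ee X k + X * (ee X k).map D)
    (fun k => (-X) * ee (-X) k) (fun k => by
      rw [← map_nsmul_D, ee_succ, map_mul_D]) (ee_succ (-X)) k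
  unfold cv
  rw [h1]
  unfold cw
  simp only [Matrix.add_mul, Finset.sum_add_distrib, Finset.mul_sum, Finset.sum_mul]
  have h2 : ∑ p ∈ Finset.HasAntidiagonal.antidiagonal k, (ee X p.1).map D * (-X * ee (-X) p.2) =
      -∑ p ∈ Finset.HasAntidiagonal.antidiagonal k, (ee X p.1).map D * ee (-X) p.2 * X := by
    rw [← Finset.sum_neg_distrib]
    refine Finset.sum_congr rfl fun p _ => ?_
    rw [ee_comm (-X), Matrix.mul_neg, Matrix.mul_neg, Matrix.mul_assoc]
  rw [h2]
  simp only [Matrix.mul_assoc]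
  abel

variable {D}

theorem cv_mem {X : Matrix B B ℂ} (hX : X ∈ nn N) (hDX : X.map D ∈ nn N) (k : ℕ) : cv D X k ∈ nn N := by
  induction k with
  | zero =>
    rw [cv_zero]
    exact (nn N).zero_mem
  | succ k ih =>
    have h1 := cv_succ D X k
    have h2 : X * cv D X k - cv D X k * X + X.map D * cw X k ∈ nn N := by
      refine (nn N).add_mem (nn_br hX ih) ?_
      rcases k with _ | k
      · rw [cw_zero, Matrix.mul_one]
        exact hDX
      · rw [cw_succ, Matrix.mul_zero]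
        exact (nn N).zero_mem
    rw [← h1] at h2
    have h3 : ((k + 1 : ℕ) : ℂ) ≠ 0 := Nat.cast_ne_zero.2 (Nat.succ_ne_zero k)
    have h4 := (nn N).smul_mem ((k + 1 : ℕ) : ℂ)⁻¹ h2
    rwa [smul_smul, inv_mul_cancel₀ h3, one_smul] at h4

theorem cv_one (X : Matrix B B ℂ) : cv D X 1 = X.map D := by
  have h1 := cv_succ D X 0
  rw [cv_zero, Matrix.mul_zero, Matrix.zero_mul, sub_zero, zero_add, cw_zero, Matrix.mul_one] at h1
  simpa using h1

theorem cv_two (hN : Deg1 d N) {X : Matrix B B ℂ} (hX : X ∈ nn N) (hDX : X.map D ∈ nn N) {k : ℕ} (hk : 2 ≤ k) :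
    cv D X k ∈ Ge d 2 := by
  obtain ⟨j, rfl⟩ := Nat.exists_eq_add_of_le' hk
  have h1 := cv_succ D X (j + 1)
  rw [cw_succ, Matrix.mul_zero, add_zero] at h1
  have h2 := Ge_br (nn_Ge hN hX) (nn_Ge hN (cv_mem hX hDX (j + 1)))
  rw [← h1] at h2
  have h3 : ((j + 1 + 1 : ℕ) : ℂ) ≠ 0 := Nat.cast_ne_zero.2 (Nat.succ_ne_zero _)
  have h4 := (Ge d 2).smul_mem ((j + 1 + 1 : ℕ) : ℂ)⁻¹ h2
  rwa [smul_smul, inv_mul_cancel₀ h3, one_smul] at h4

end der

/-- products of sums -/
theorem sum_conv {f g : ℕ → Matrix B B ℂ} {K : ℕ} (hf : ∀ k, K ≤ k → f k = 0) (hg : ∀ k, K ≤ k → g k = 0) :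
    (∑ k ∈ Finset.range K, f k) * (∑ k ∈ Finset.range K, g k) =
      ∑ k ∈ Finset.range (2 * K), ∑ p ∈ Finset.HasAntidiagonal.antidiagonal k, f p.1 * g p.2 := by
  rw [Finset.sum_mul_sum, ← Finset.sum_product']
  rw [Finset.sum_sigma']
  symm
  refine Finset.sum_bij_ne_zero (fun a _ _ => a.2) ?_ ?_ ?_ ?_
  · rintro ⟨k, p⟩ h1 h2
    rw [Finset.mem_sigma] at h1
    rw [Finset.mem_product, Finset.mem_range, Finset.mem_range]
    constructor
    · by_contra h3
      exact h2 (by rw [hf _ (not_lt.1 h3), Matrix.zero_mul])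
    · by_contra h3
      exact h2 (by rw [hg _ (not_lt.1 h3), Matrix.mul_zero])
  · rintro ⟨k, p⟩ h1 h2 ⟨k', p'⟩ h1' h2' h3
    rw [Finset.mem_sigma] at h1 h1'
    simp only at h3
    subst h3
    have h4 := Finset.HasAntidiagonal.mem_antidiagonal.1 h1.2
    have h5 := Finset.HasAntidiagonal.mem_antidiagonal.1 h1'.2
    simp only at h4 h5
    subst h4
    subst h5
    rfl
  · rintro p h1 h2
    rw [Finset.mem_product, Finset.mem_range, Finset.mem_range] at h1
    exact ⟨⟨p.1 + p.2, p⟩, Finset.mem_sigma.2 ⟨Finset.mem_range.2 (by simp only; omega),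
      Finset.HasAntidiagonal.mem_antidiagonal.2 rfl⟩, h2, rfl⟩
  · rintro ⟨k, p⟩ _ _
    rfl

theorem ex_mul_neg {X : Matrix B B ℂ} (hX : X ∈ Ge d 1) : ex d X * ex d (-X) = 1 := by
  unfold ex
  rw [sum_conv (fun k hk => ee_top hX hk) (fun k hk => ee_top ((Ge d 1).neg_mem hX) hk)]
  have h1 : 2 * top d = (2 * top d - 1) + 1 := by
    have : 0 < top d := Nat.succ_pos _
    omega
  rw [h1, Finset.sum_range_succ']
  have h2 : ∑ p ∈ Finset.HasAntidiagonal.antidiagonal 0, ee X p.1 * ee (-X) p.2 = 1 := cw_zero X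
  rw [h2, Finset.sum_eq_zero, zero_add]
  intro k _
  exact cw_succ X k

theorem ex_der (hN : Deg1 d N) (D : Derivation ℚ ℂ ℂ) {X : Matrix B B ℂ} (hX : X ∈ nn N) (hDX : X.map D ∈ nn N) :
    (ex d X).map D * ex d (-X) ∈ nn N ∧ (ex d X).map D * ex d (-X) - X.map D ∈ Ge d 2 := by
  have hX1 := nn_Ge hN hX
  have h1 : (ex d X).map D * ex d (-X) = ∑ k ∈ Finset.range (2 * top d), cv D X k := by
    unfold ex cv
    rw [map_sum_D, sum_conv (fun k hk => by rw [ee_top hX1 hk, map_zero_D])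
      (fun k hk => ee_top ((Ge d 1).neg_mem hX1) hk)]
  constructor
  · rw [h1]
    exact (nn N).sum_mem fun k _ => cv_mem hX hDX k
  · rw [h1]
    have h0 : 0 < top d := Nat.succ_pos _
    have h2 : 2 * top d = (2 * top d - 2) + 1 + 1 := by omega
    rw [h2, Finset.sum_range_succ', Finset.sum_range_succ', cv_zero, cv_one, add_zero, add_sub_cancel_right]
    exact (Ge d 2).sum_mem fun k _ => cv_two hN hX hDX (by omega)

theorem ex_one {X : Matrix B B ℂ} (hX : X ∈ Ge d 1) : ex d X - 1 ∈ Ge d 1 := by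
  unfold ex
  have h0 : top d = (top d - 1) + 1 := by
    have : 0 < top d := Nat.succ_pos _
    omega
  rw [h0, Finset.sum_range_succ', ee_zero, add_sub_cancel_right]
  refine (Ge d 1).sum_mem fun k _ => ?_
  unfold ee
  exact (Ge d 1).smul_mem _ (Ge_mono (by rw [mul_one]; omega) (Ge_pow hX (k + 1)))

end Pool.Agent.X306.MT
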