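import Mathlib

set_option autoImplicit false
set_option linter.unusedVariables false
set_option linter.unusedSectionVars false
set_option linter.unusedSimpArgs false

/-!
# The weight filtration on matrices
-/

open Matrix

noncomputable section

namespace Pool.Agent.X306.MT

variable {B : Type} [Fintype B] [DecidableEq B] (d : B → ℕ)

/-- the matrices which raise the degree by at least `k` -/
def Ge (k : ℕ) : Submodule ℂ (Matrix B B ℂ) where
  carrier := {X | ∀ b b', d b' < d b + k → X b b' = 0}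
  zero_mem' := fun _ _ _ => rfl
  add_mem' := fun {X Y} hX hY b b' h => by rw [Matrix.add_apply, hX b b' h, hY b b' h, add_zero]
  smul_mem' := fun a X hX b b' h => by rw [Matrix.smul_apply, hX b b' h, smul_zero]

variable {d}

theorem Ge_mono {j k : ℕ} (h : j ≤ k) {X : Matrix B B ℂ} (hX : X ∈ Ge d k) : X ∈ Ge d j :=
  fun b b' h' => hX b b' (by omega)

theorem Ge_mul {j k : ℕ} {X Y : Matrix B B ℂ} (hX : X ∈ Ge d j) (hY : Y ∈ Ge d k) : X * Y ∈ Ge d (j + k) := by
  intro b b' h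
  rw [Matrix.mul_apply]
  refine Finset.sum_eq_zero fun c _ => ?_
  rcases lt_or_ge (d c) (d b + j) with h1 | h1
  · rw [hX b c h1, zero_mul]
  · rw [hY c b' (by omega), mul_zero]

theorem Ge_br {j k : ℕ} {X Y : Matrix B B ℂ} (hX : X ∈ Ge d j) (hY : Y ∈ Ge d k) : X * Y - Y * X ∈ Ge d (j + k) := by
  refine (Ge d (j + k)).sub_mem (Ge_mul hX hY) ?_
  rw [add_comm j k]
  exact Ge_mul hY hX

theorem Ge_one : (1 : Matrix B B ℂ) ∈ Ge d 0 := by
  intro b b' h
  rw [Matrix.one_apply_ne]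
  rintro rfl
  omega

theorem Ge_pow {j : ℕ} {X : Matrix B B ℂ} (hX : X ∈ Ge d j) (n : ℕ) : X ^ n ∈ Ge d (n * j) := by
  induction n with
  | zero =>
    rw [pow_zero, zero_mul]
    exact Ge_one
  | succ n ih =>
    rw [pow_succ, add_mul, one_mul]
    exact Ge_mul ih hX

variable (d)

/-- a bound for the degrees -/
def top : ℕ := Finset.univ.sup d + 1

variable {d}

theorem le_top (b : B) : d b < top d := Nat.lt_succ_of_le (Finset.le_sup (f := d) (Finset.mem_univ b))

theorem Ge_top {k : ℕ} (hk : top d ≤ k) {X : Matrix B B ℂ} (hX : X ∈ Ge d k) : X = 0 := by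
  ext b b'
  exact hX b b' (by have := le_top (d := d) b'; omega)

theorem pow_top {X : Matrix B B ℂ} (hX : X ∈ Ge d 1) : X ^ (top d) = 0 := by
  refine Ge_top (k := top d * 1) (by omega) (Ge_pow hX _)

variable (d)

/-- the degree operator -/
def Dl : Matrix B B ℂ := diagonal fun b => (d b : ℂ)

variable {d}

theorem Dl_mem : Dl d ∈ Ge d 0 := by
  intro b b' h
  unfold Dl
  rw [diagonal_apply_ne]
  rintro rfl
  omega

theorem br_Dl {k : ℕ} {X : Matrix B B ℂ} (hX : X ∈ Ge d k) : Dl d * X - X * Dl d + (k : ℂ) • X ∈ Ge d (k + 1) := by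
  intro b b' h
  rw [Matrix.add_apply, Matrix.sub_apply, Matrix.smul_apply]
  unfold Dl
  rw [diagonal_mul, mul_diagonal]
  rcases lt_or_ge (d b') (d b + k) with h1 | h1
  · rw [hX b b' h1, mul_zero, zero_mul, smul_zero, sub_zero, add_zero]
  · have h2 : d b' = d b + k := by omega
    rw [h2]
    push_cast
    rw [smul_eq_mul]
    ring

theorem br_deg {k : ℕ} {Y X : Matrix B B ℂ} (hY : Y - Dl d ∈ Ge d 1) (hX : X ∈ Ge d k) :
    Y * X - X * Y + (k : ℂ) • X ∈ Ge d (k + 1) := by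
  have h1 := (Ge d (k + 1)).add_mem (br_Dl hX) (by
    have := Ge_br hY hX
    rwa [add_comm 1 k] at this)
  refine (congrArg (· ∈ Ge d (k + 1)) ?_).mp h1
  simp only [Matrix.sub_mul, Matrix.mul_sub]
  abel

/-- the matrices which are unipotent up to the powers of `w` -/
structure Tri (d : B → ℕ) (w : ℂ) (C : Matrix B B ℂ) : Prop where
  ne : w ≠ 0
  low : ∀ b b', d b' < d b → C b b' = 0
  dia : ∀ b b', d b' = d b → C b b' = if b = b' then w ^ d b else 0

/-- the diagonal part -/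
def La (d : B → ℕ) (w : ℂ) : Matrix B B ℂ := diagonal fun b => w ^ d b

theorem La_mem (w : ℂ) : La d w ∈ Ge d 0 := by
  intro b b' h
  unfold La
  rw [diagonal_apply_ne]
  rintro rfl
  omega

theorem La_mul {w : ℂ} (hw : w ≠ 0) : La d w * La d w⁻¹ = 1 := by
  unfold La
  rw [diagonal_mul_diagonal, ← diagonal_one]
  congr 1
  funext b
  rw [inv_pow, mul_inv_cancel₀ (pow_ne_zero _ hw)]

variable {w : ℂ} {C : Matrix B B ℂ}

theorem Tri.sub_mem (h : Tri d w C) : C - La d w ∈ Ge d 1 := by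
  intro b b' h'
  rw [Matrix.sub_apply]
  unfold La
  rcases lt_or_ge (d b') (d b) with h1 | h1
  · rw [h.low b b' h1, diagonal_apply_ne, sub_zero]
    rintro rfl
    omega
  · rw [h.dia b b' (by omega)]
    by_cases h2 : b = b'
    · subst h2
      rw [if_pos rfl, diagonal_apply_eq, sub_self]
    · rw [if_neg h2, diagonal_apply_ne _ h2, sub_zero]

theorem Tri.mem (h : Tri d w C) : C ∈ Ge d 0 := by
  have := (Ge d 0).add_mem (Ge_mono (Nat.zero_le 1) h.sub_mem) (La_mem w)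
  rwa [sub_add_cancel] at this

/-- the inverse -/
theorem Tri.exists_inv (h : Tri d w C) : ∃ C' : Matrix B B ℂ, C * C' = 1 ∧ C' ∈ Ge d 0 ∧ C' - La d w⁻¹ ∈ Ge d 1 := by
  have hw := h.ne
  have hw' : w⁻¹ ≠ 0 := inv_ne_zero hw
  have hL' : La d w⁻¹ * La d w = 1 := by
    have := La_mul (d := d) hw'
    rwa [inv_inv] at this
  set R : Matrix B B ℂ := La d w⁻¹ * C - 1 with hR
  have hRm : R ∈ Ge d 1 := by
    have h1 := Ge_mul (La_mem (d := d) w⁻¹) h.sub_mem
    rw [Matrix.mul_sub, hL', zero_add] at h1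
    exact h1
  set S : Matrix B B ℂ := ∑ k ∈ Finset.range (top d), (-R) ^ k with hS
  have hRm' : -R ∈ Ge d 1 := (Ge d 1).neg_mem hRm
  have h1 : (1 + R) * S = 1 := by
    have h2 := mul_neg_geom_sum (-R) (top d)
    rw [pow_top hRm', sub_zero, sub_neg_eq_add] at h2
    exact h2
  have hC : C = La d w * (1 + R) := by
    rw [hR, add_sub_cancel, ← Matrix.mul_assoc, La_mul hw, Matrix.one_mul]
  have hS1 : S - 1 ∈ Ge d 1 := by
    have h2 : S - 1 = ∑ k ∈ Finset.range (top d), (if k = 0 then 0 else (-R) ^ k) := by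
      have h3 : ∀ k ∈ Finset.range (top d), (-R) ^ k = (if k = 0 then 1 else 0) + (if k = 0 then 0 else (-R) ^ k) := by
        intro k _
        split_ifs with h4
        · rw [h4, pow_zero, add_zero]
        · rw [zero_add]
      have h5 : 0 ∈ Finset.range (top d) := Finset.mem_range.2 (Nat.succ_pos _)
      rw [hS, Finset.sum_congr rfl h3, Finset.sum_add_distrib, Finset.sum_ite_eq', if_pos h5]
      abel
    rw [h2]
    refine (Ge d 1).sum_mem fun k _ => ?_
    split_ifs with h4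
    · exact (Ge d 1).zero_mem
    · exact Ge_mono (by rw [mul_one]; omega) (Ge_pow hRm' k)
  have hS0 : S ∈ Ge d 0 := by
    have := (Ge d 0).add_mem (Ge_mono (Nat.zero_le 1) hS1) Ge_one
    rwa [sub_add_cancel] at this
  refine ⟨S * La d w⁻¹, ?_, Ge_mul hS0 (La_mem _), ?_⟩
  · conv_lhs => rw [hC]
    rw [Matrix.mul_assoc, ← Matrix.mul_assoc (1 + R), h1, Matrix.one_mul, La_mul hw]
  · have h2 := Ge_mul hS1 (La_mem (d := d) w⁻¹)
    rw [Matrix.sub_mul, Matrix.one_mul] at h2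
    exact h2

theorem Tri.isUnit (h : Tri d w C) : IsUnit C := by
  obtain ⟨C', h1, _⟩ := h.exists_inv
  exact IsUnit.of_mul_eq_one _ h1

theorem Tri.inv_mem (h : Tri d w C) : C⁻¹ ∈ Ge d 0 := by
  obtain ⟨C', h1, h2, _⟩ := h.exists_inv
  rw [Matrix.inv_eq_right_inv h1]
  exact h2

theorem Tri.inv_sub (h : Tri d w C) : C⁻¹ - La d w⁻¹ ∈ Ge d 1 := by
  obtain ⟨C', h1, _, h2⟩ := h.exists_inv
  rw [Matrix.inv_eq_right_inv h1]
  exact h2

theorem Tri.mul_inv (h : Tri d w C) : C * C⁻¹ = 1 :=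
  Matrix.mul_nonsing_inv _ ((Matrix.isUnit_iff_isUnit_det _).1 h.isUnit)

theorem Tri.inv_mul (h : Tri d w C) : C⁻¹ * C = 1 :=
  Matrix.nonsing_inv_mul _ ((Matrix.isUnit_iff_isUnit_det _).1 h.isUnit)

theorem La_conj (hw : w ≠ 0) {k : ℕ} {X : Matrix B B ℂ} (hX : X ∈ Ge d k) :
    La d w * X * La d w⁻¹ - (w ^ k)⁻¹ • X ∈ Ge d (k + 1) := by
  intro b b' h
  rw [Matrix.sub_apply, Matrix.smul_apply]
  unfold La
  rw [mul_diagonal, diagonal_mul]
  rcases lt_or_ge (d b') (d b + k) with h1 | h1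
  · rw [hX b b' h1]
    simp
  · have h2 : d b' = d b + k := by omega
    rw [h2, smul_eq_mul, inv_pow, pow_add]
    field_simp
    ring

theorem Tri.conj (h : Tri d w C) {k : ℕ} {X : Matrix B B ℂ} (hX : X ∈ Ge d k) :
    C * X * C⁻¹ - (w ^ k)⁻¹ • X ∈ Ge d (k + 1) := by
  have h1 : (C - La d w) * X * C⁻¹ ∈ Ge d (k + 1) := by
    have := Ge_mul (Ge_mul h.sub_mem hX) h.inv_mem
    rwa [add_zero, add_comm 1 k] at this
  have h2 : La d w * X * (C⁻¹ - La d w⁻¹) ∈ Ge d (k + 1) := by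
    have := Ge_mul (Ge_mul (La_mem w) hX) h.inv_sub
    rwa [zero_add] at this
  have h3 := (Ge d (k + 1)).add_mem ((Ge d (k + 1)).add_mem h1 h2) (La_conj h.ne hX)
  refine (congrArg (· ∈ Ge d (k + 1)) ?_).mp h3
  simp only [Matrix.sub_mul, Matrix.mul_sub]
  abel

theorem Tri.conj_mem (h : Tri d w C) {k : ℕ} {X : Matrix B B ℂ} (hX : X ∈ Ge d k) : C * X * C⁻¹ ∈ Ge d k := by
  have := Ge_mul (Ge_mul h.mem hX) h.inv_mem
  rwa [add_zero, zero_add] at this

theorem Tri.conj_mem' (h : Tri d w C) {k : ℕ} {X : Matrix B B ℂ} (hX : X ∈ Ge d k) : C⁻¹ * X * C ∈ Ge d k := by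
  have := Ge_mul (Ge_mul h.inv_mem hX) h.mem
  rwa [add_zero, zero_add] at this

/-- the component of degree `k` -/
def pr (d : B → ℕ) (k : ℕ) : Matrix B B ℂ →ₗ[ℂ] Matrix B B ℂ where
  toFun X := Matrix.of fun b b' => if d b' = d b + k then X b b' else 0
  map_add' X Y := by
    ext b b'
    simp only [Matrix.of_apply, Matrix.add_apply]
    split_ifs
    · rfl
    · rw [add_zero]
  map_smul' a X := by
    ext b b'
    simp only [Matrix.of_apply, Matrix.smul_apply, RingHom.id_apply]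
    split_ifs
    · rfl
    · rw [smul_zero]

theorem pr_apply (k : ℕ) (X : Matrix B B ℂ) (b b' : B) : pr d k X b b' = if d b' = d b + k then X b b' else 0 := rfl

theorem sub_pr {k : ℕ} {X : Matrix B B ℂ} (hX : X ∈ Ge d k) : X - pr d k X ∈ Ge d (k + 1) := by
  intro b b' h
  rw [Matrix.sub_apply, pr_apply]
  split_ifs with h1
  · rw [sub_self]
  · rw [hX b b' (by omega), sub_zero]

theorem pr_eq_zero {k : ℕ} {X : Matrix B B ℂ} (hX : X ∈ Ge d (k + 1)) : pr d k X = 0 := by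
  ext b b'
  rw [pr_apply]
  split_ifs with h1
  · exact hX b b' (by omega)
  · rfl

end Pool.Agent.X306.MT
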