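import Pool.Agent.X306.MT.Nor

set_option autoImplicit false
set_option linter.unusedVariables false
set_option linter.unusedSectionVars false
set_option linter.unusedSimpArgs false

/-!
# The Lie algebra of a subtorsor for unipotent variations of mixed Tate motives
-/

open Matrix Module

noncomputable section

namespace Pool.Agent.X306.MT

open Pool.Agent.W516.DR Pool.Agent.W245.EB Pool.Agent.Y102
open Pool.Agent.TH127.PT Pool.Agent.TH119.DR Pool.Agent.Y123.ST
open Pool.Agent.X306.EM (QB_iff)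
open Pool.Agent.X306.RL (LL_br derD)
open Pool.Agent.X306.PL (dB baker_span path_mem)

variable {B S : Type} [Fintype B] [DecidableEq B] [Fintype S] {d : B → ℕ} {N : S → Matrix B B ℂ}
  {C : Matrix B B ℂ} {w : ℂ} {T : Set (Matrix (B ⊕ B) (B ⊕ B) ℂ)}

/-- the elements -/
def pt (Y V : Matrix B B ℂ) : Matrix (B ⊕ B) (B ⊕ B) ℂ := fromBlocks Y 0 0 (Y + V)

theorem pt_zero : pt (0 : Matrix B B ℂ) 0 = 0 := by
  unfold pt
  rw [add_zero, fromBlocks_zero]

theorem pt_add (Y V Y' V' : Matrix B B ℂ) : pt (Y + Y') (V + V') = pt Y V + pt Y' V' := by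
  unfold pt
  rw [fromBlocks_add, add_zero]
  congr 1
  abel

theorem pt_smul (a : ℂ) (Y V : Matrix B B ℂ) : pt (a • Y) (a • V) = a • pt Y V := by
  unfold pt
  rw [fromBlocks_smul, smul_zero, smul_add]

theorem pt_br (Y V Y' V' : Matrix B B ℂ) : pt Y V * pt Y' V' - pt Y' V' * pt Y V =
    pt (Y * Y' - Y' * Y) ((Y * V' - V' * Y) - (Y' * V - V * Y') + (V * V' - V' * V)) := by
  unfold pt
  rw [fromBlocks_multiply, fromBlocks_multiply, sub_eq_add_neg, fromBlocks_neg, fromBlocks_add]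
  simp only [Matrix.mul_zero, Matrix.zero_mul, add_zero, zero_add, neg_zero, Matrix.mul_add, Matrix.add_mul]
  congr 1
  abel

/-- the elements with given components of degree at most one -/
structure Adm (T : Set (Matrix (B ⊕ B) (B ⊕ B) ℂ)) (d : B → ℕ) (C : Matrix B B ℂ) (N : S → Matrix B B ℂ)
    (z0 : ℂ) (z1 : B × B → ℂ) (z2 : S → ℂ) (Y V : Matrix B B ℂ) : Prop where
  mem : fl (pt Y V) ∈ LL T
  nor : Y ∈ Nor C N
  bet : V ∈ nB C N
  deg : Y - z0 • Dl d ∈ Ge d 1
  one : ∀ b b', d b' = d b + 1 → Y b b' = z1 (b, b')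
  two : V - ∑ s, z2 s • N s ∈ Ge d 2

theorem Adm.zero : Adm T d C N 0 0 0 0 0 where
  mem := by
    rw [pt_zero, fl_zero]
    exact (LL T).zero_mem
  nor := (Nor C N).zero_mem
  bet := (nB C N).zero_mem
  deg := by
    rw [zero_smul, sub_zero]
    exact (Ge d 1).zero_mem
  one := fun b b' h => rfl
  two := by
    have h : ∑ s, (0 : S → ℂ) s • N s = 0 := Finset.sum_eq_zero fun s _ => by rw [Pi.zero_apply, zero_smul]
    rw [h, sub_zero]
    exact (Ge d 2).zero_mem

theorem Adm.add {z0 z0' : ℂ} {z1 z1' : B × B → ℂ} {z2 z2' : S → ℂ} {Y V Y' V' : Matrix B B ℂ}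
    (h : Adm T d C N z0 z1 z2 Y V) (h' : Adm T d C N z0' z1' z2' Y' V') :
    Adm T d C N (z0 + z0') (z1 + z1') (z2 + z2') (Y + Y') (V + V') where
  mem := by
    rw [pt_add, fl_add]
    exact (LL T).add_mem h.mem h'.mem
  nor := (Nor C N).add_mem h.nor h'.nor
  bet := (nB C N).add_mem h.bet h'.bet
  deg := by
    refine (congrArg (· ∈ Ge d 1) ?_).mp ((Ge d 1).add_mem h.deg h'.deg)
    rw [add_smul]
    abel
  one := fun b b' hb => by
    rw [Matrix.add_apply, h.one b b' hb, h'.one b b' hb]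
    rfl
  two := by
    refine (congrArg (· ∈ Ge d 2) ?_).mp ((Ge d 2).add_mem h.two h'.two)
    have h1 : ∑ s, (z2 + z2') s • N s = ∑ s, z2 s • N s + ∑ s, z2' s • N s := by
      rw [← Finset.sum_add_distrib]
      exact Finset.sum_congr rfl fun s _ => by rw [Pi.add_apply, add_smul]
    rw [h1]
    abel

theorem Adm.smul (a : ℂ) {z0 : ℂ} {z1 : B × B → ℂ} {z2 : S → ℂ} {Y V : Matrix B B ℂ}
    (h : Adm T d C N z0 z1 z2 Y V) : Adm T d C N (a * z0) (a • z1) (a • z2) (a • Y) (a • V) where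
  mem := by
    rw [pt_smul, fl_smul]
    exact (LL T).smul_mem a h.mem
  nor := (Nor C N).smul_mem a h.nor
  bet := (nB C N).smul_mem a h.bet
  deg := by
    refine (congrArg (· ∈ Ge d 1) ?_).mp ((Ge d 1).smul_mem a h.deg)
    rw [smul_sub, smul_smul]
  one := fun b b' hb => by
    rw [Matrix.smul_apply, h.one b b' hb]
    rfl
  two := by
    refine (congrArg (· ∈ Ge d 2) ?_).mp ((Ge d 2).smul_mem a h.two)
    rw [smul_sub, Finset.smul_sum]
    congr 1
    exact Finset.sum_congr rfl fun s _ => by rw [Pi.smul_apply, smul_smul, smul_eq_mul]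

theorem map_sub_f {B : Type} (f : ℂ →ₗ[QB] ℂ) (X Y : Matrix B B ℂ) : (X - Y).map f = X.map f - Y.map f := by
  ext b b'
  simp only [Matrix.map_apply, Matrix.sub_apply, map_sub]

theorem Ge_map {k : ℕ} (f : ℂ →ₗ[QB] ℂ) {X : Matrix B B ℂ} (hX : X ∈ Ge d k) : X.map f ∈ Ge d k := by
  intro b b' h
  rw [Matrix.map_apply, hX b b' h, map_zero]

theorem Dl_alg (b b' : B) : IsAlgebraic ℚ (Dl d b b') := by
  unfold Dl
  rw [diagonal_apply]
  split_ifs
  · exact isAlgebraic_nat (d b)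
  · exact isAlgebraic_zero

/-- linear maps over the algebraic numbers -/
theorem Adm.map (hT : IsSubtorsor QB T) (hB : DefB C N) (hA : ∀ s, AlgM (N s)) {z0 : ℂ} {z1 : B × B → ℂ}
    {z2 : S → ℂ} {Y V : Matrix B B ℂ} (h : Adm T d C N z0 z1 z2 Y V) (f : ℂ →ₗ[QB] ℂ) :
    Adm T d C N (f z0) (fun b => f (z1 b)) (fun s => f (z2 s)) (Y.map f) (V.map f) where
  mem := by
    have h4 := (LL_def hT).map f h.mem
    have h5 : fl ((pt Y V).map f) ∈ LL T := h4
    refine (congrArg (fun X => fl X ∈ LL T) ?_).mp h5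
    unfold pt
    rw [fromBlocks_map]
    congr 1
    · ext b b'
      exact map_zero f
    · ext b b'
      exact map_zero f
    · ext b b'
      exact map_add f _ _
  nor := Nor_map hB h.nor f
  bet := nB_map hB h.bet f
  deg := by
    have h1 := Ge_map f h.deg
    refine (congrArg (· ∈ Ge d 1) ?_).mp h1
    rw [map_sub_f]
    congr 1
    ext b b'
    rw [Matrix.map_apply, Matrix.smul_apply, Matrix.smul_apply, smul_eq_mul, smul_eq_mul, f_mul f _ (Dl_alg b b')]
  one := fun b b' hb => by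
    rw [Matrix.map_apply, h.one b b' hb]
  two := by
    have h1 := Ge_map f h.two
    refine (congrArg (· ∈ Ge d 2) ?_).mp h1
    rw [map_sub_f]
    congr 1
    ext b b'
    rw [Matrix.map_apply, Matrix.sum_apply, Matrix.sum_apply, map_sum]
    refine Finset.sum_congr rfl fun s _ => ?_
    rw [Matrix.smul_apply, Matrix.smul_apply, smul_eq_mul, smul_eq_mul, f_mul f _ (hA s b b')]

/-- entries of degree one of a product with `C` -/
theorem mul_one_entry (hC : Tri d w C) {R : Matrix B B ℂ} (hR : R ∈ Ge d 1) {b b' : B} (h : d b' = d b + 1) :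
    (R * C) b b' = R b b' * w ^ d b' := by
  have h1 := Ge_mul hR hC.sub_mem b b' (by omega)
  rw [Matrix.mul_sub, Matrix.sub_apply, sub_eq_zero] at h1
  rw [h1]
  unfold La
  rw [mul_diagonal]

theorem map_Ge_D (D : Derivation QBar ℂ ℂ) {k : ℕ} {X : Matrix B B ℂ} (hX : X ∈ Ge d k) : X.map D ∈ Ge d k := by
  intro b b' h
  rw [Matrix.map_apply, hX b b' h, map_zero]

/-- the logarithmic derivative of the period matrix of `M_0` -/
theorem der_deg (hC : Tri d w C) {lam : B × B → ℂ} (hlam : ∀ b b', d b' = d b + 1 → C b b' = w ^ d b * lam (b, b'))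
    (D : Derivation QBar ℂ ℂ) : C.map D * C⁻¹ - (D w / w) • Dl d ∈ Ge d 1 ∧
      ∀ b b', d b' = d b + 1 → (C.map D * C⁻¹) b b' = D (lam (b, b')) / w := by
  have hw := hC.ne
  set Y : Matrix B B ℂ := C.map D * C⁻¹ with hY
  have hYC : Y * C = C.map D := by
    rw [hY, Matrix.mul_assoc, hC.inv_mul, Matrix.mul_one]
  have hpow : ∀ k : ℕ, D (w ^ k) = (D w / w) * ((k : ℂ) * w ^ k) := by
    intro k
    rw [Derivation.leibniz_pow]
    rcases k with _ | k
    · simp
    · rw [Nat.add_sub_cancel, nsmul_eq_mul, smul_eq_mul]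
      field_simp
      ring
  have h1 : C.map D - (D w / w) • (Dl d * C) ∈ Ge d 1 := by
    have h2 : C.map D - (D w / w) • (Dl d * C) =
        (C - La d w).map D - (D w / w) • (Dl d * (C - La d w)) := by
      ext b b'
      unfold Dl La
      simp only [Matrix.sub_apply, Matrix.map_apply, Matrix.smul_apply, diagonal_mul, map_sub, diagonal_apply,
        smul_eq_mul]
      split_ifs with h
      · rw [hpow]
        ring
      · rw [map_zero]
        ring
    rw [h2]
    refine (Ge d 1).sub_mem (map_Ge_D D hC.sub_mem) ((Ge d 1).smul_mem _ ?_)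
    have h3 := Ge_mul Dl_mem hC.sub_mem
    rwa [zero_add] at h3
  have h2 : Y - (D w / w) • Dl d ∈ Ge d 1 := by
    have h3 := Ge_mul h1 hC.inv_mem
    rw [add_zero] at h3
    refine (congrArg (· ∈ Ge d 1) ?_).mp h3
    rw [Matrix.sub_mul, Matrix.smul_mul, Matrix.mul_assoc, hC.mul_inv, Matrix.mul_one]
  refine ⟨h2, fun b b' h => ?_⟩
  have h3 := mul_one_entry hC h2 h
  have h4 : (Dl d) b b' = 0 := by
    unfold Dl
    rw [diagonal_apply_ne]
    rintro rfl
    omega
  rw [Matrix.sub_mul, hYC, Matrix.smul_mul, Matrix.sub_apply, Matrix.sub_apply, Matrix.smul_apply, Matrix.smul_apply,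
    h4, smul_zero, sub_zero, Matrix.map_apply, hlam b b' h, Derivation.leibniz, hpow, h] at h3
  unfold Dl at h3
  rw [diagonal_mul, hlam b b' h, smul_eq_mul, smul_eq_mul, smul_eq_mul, pow_succ] at h3
  have h5 : w ^ d b ≠ 0 := pow_ne_zero _ hw
  rw [eq_div_iff hw]
  refine mul_left_cancel₀ h5 ?_
  linear_combination -h3

variable {l : S → ℂ} {ell : Matrix B B ℂ} {lam : B × B → ℂ}

theorem Tri.map_conj (hC : Tri d w C) {X : Matrix B B ℂ} (hX : X ∈ Ge d 1) :
    C * X * C⁻¹ - w⁻¹ • X ∈ Ge d 2 := by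
  have h1 := hC.conj hX
  rwa [pow_one] at h1

/-- the logarithmic derivatives -/
theorem lie_der (hT : IsSubtorsor QB T) (hC : Tri d w C) (hlam : ∀ b b', d b' = d b + 1 → C b b' = w ^ d b * lam (b, b'))
    (hA : ∀ s, AlgM (N s)) (hN : Deg1 d N) (hB : DefB C N) (hell : ell ∈ nn N)
    (hell1 : ell - ∑ s, l s • N s ∈ Ge d 2) (hP : fromBlocks C 0 0 (C * ex d ell) ∈ T) (D : Derivation QBar ℂ ℂ) :
    ∃ Y V, Adm T d C N (D w / w) (fun b => D (lam b) / w) (fun s => D (l s) / w) Y V := by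
  have hw := hC.ne
  set D' : Derivation ℚ ℂ ℂ := D.restrictScalars ℚ with hD'
  have hmap : ∀ X : Matrix B B ℂ, X.map D = X.map D' := fun X => rfl
  obtain ⟨hY1, hY2⟩ := der_deg hC hlam D
  have hDell : ell.map D' ∈ nn N := nn_der D' (fun s b b' => D_alg D (hA s b b')) hell
  obtain ⟨hX1, hX2⟩ := ex_der hN D' hell hDell
  set X : Matrix B B ℂ := (ex d ell).map D' * ex d (-ell) with hX
  refine ⟨C.map D * C⁻¹, C * X * C⁻¹, ?_, Nor_der hC hA hB D, conj_nB hC hX1, hY1, hY2, ?_⟩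
  · have h1 := logder_mem hT (dB D) hP
    have h2 : (fromBlocks C 0 0 (C * ex d ell))⁻¹ = fromBlocks C⁻¹ 0 0 (ex d (-ell) * C⁻¹) := by
      refine Matrix.inv_eq_right_inv ?_
      rw [fromBlocks_multiply]
      simp only [Matrix.mul_zero, Matrix.zero_mul, add_zero, zero_add]
      rw [hC.mul_inv, Matrix.mul_assoc, ← Matrix.mul_assoc (ex d ell), ex_mul_neg (nn_Ge hN hell),
        Matrix.one_mul, hC.mul_inv, fromBlocks_one]
    rw [h2] at h1
    refine (congrArg (fun X => fl X ∈ LL T) ?_).mp h1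
    unfold pt
    rw [fromBlocks_map, fromBlocks_multiply]
    have h0 : (0 : Matrix B B ℂ).map (dB D) = 0 := by
      ext b b'
      exact map_zero (dB D)
    have h3 : (C * ex d ell).map (dB D) = C.map D' * ex d ell + C * (ex d ell).map D' := map_mul_D D' _ _
    have h4 : C.map (dB D) = C.map D' := rfl
    rw [h0, h3, h4]
    simp only [Matrix.mul_zero, Matrix.zero_mul, add_zero, zero_add]
    congr 1
    rw [hmap, hX, Matrix.add_mul]
    congr 1
    · rw [Matrix.mul_assoc, ← Matrix.mul_assoc (ex d ell), ex_mul_neg (nn_Ge hN hell), Matrix.one_mul]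
    · simp only [Matrix.mul_assoc]
  · have h1 := hC.map_conj (nn_Ge hN hX1)
    have h2 : ell.map D' - ∑ s, D (l s) • N s ∈ Ge d 2 := by
      have h3 := map_Ge_D D hell1
      refine (congrArg (· ∈ Ge d 2) ?_).mp h3
      ext b b'
      rw [Matrix.map_apply, Matrix.sub_apply, Matrix.sub_apply, Matrix.sum_apply, Matrix.sum_apply, map_sub, map_sum]
      congr 1
      refine Finset.sum_congr rfl fun s _ => ?_
      rw [Matrix.smul_apply, Matrix.smul_apply, smul_eq_mul, smul_eq_mul, Derivation.leibniz, D_alg D (hA s b b'),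
        smul_zero, zero_add, smul_eq_mul, mul_comm]
    have h3 := (Ge d 2).add_mem h1 ((Ge d 2).smul_mem w⁻¹ ((Ge d 2).add_mem hX2 h2))
    refine (congrArg (· ∈ Ge d 2) ?_).mp h3
    rw [sub_add_sub_cancel, smul_sub, Finset.smul_sum]
    have h4 : ∀ s, w⁻¹ • D (l s) • N s = (D (l s) / w) • N s := by
      intro s
      rw [smul_smul]
      congr 1
      rw [div_eq_mul_inv, mul_comm]
    simp only [h4]
    abel

/-- the possible components of degree at most one -/
def WW (T : Set (Matrix (B ⊕ B) (B ⊕ B) ℂ)) (d : B → ℕ) (C : Matrix B B ℂ) (N : S → Matrix B B ℂ) :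
    Submodule ℂ (Unit ⊕ ((B × B) ⊕ S) → ℂ) where
  carrier := {z | ∃ Y V, Adm T d C N (z (Sum.inl ())) (fun b => z (Sum.inr (Sum.inl b)))
    (fun s => z (Sum.inr (Sum.inr s))) Y V}
  zero_mem' := ⟨0, 0, Adm.zero⟩
  add_mem' := by
    rintro z z' ⟨Y, V, h⟩ ⟨Y', V', h'⟩
    exact ⟨_, _, h.add h'⟩
  smul_mem' := by
    rintro a z ⟨Y, V, h⟩
    exact ⟨_, _, h.smul a⟩

/-- all possible components of degree at most one occur -/
theorem lie_mem (hT : IsSubtorsor QB T) (hC : Tri d (2 * Real.pi * Complex.I) C)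
    (hlam : ∀ b b', d b' = d b + 1 → C b b' = (2 * Real.pi * Complex.I) ^ d b * lam (b, b'))
    (hA : ∀ s, AlgM (N s)) (hN : Deg1 d N) (hB : DefB C N) (hell : ell ∈ nn N)
    (hell1 : ell - ∑ s, l s • N s ∈ Ge d 2) (hP : fromBlocks C 0 0 (C * ex d ell) ∈ T)
    (hlamA : ∀ b, IsAlgebraic ℚ (Complex.exp (lam b))) (hlA : ∀ s, IsAlgebraic ℚ (Complex.exp (l s)))
    {z0 : ℂ} {z1 : B × B → ℂ} {z2 : S → ℂ} (hz : ∀ (k : ℤ) (p : B × B → ℤ) (q : S → ℤ),
      ∑ b, (p b : ℂ) * lam b + ∑ s, (q s : ℂ) * l s = k * (2 * Real.pi * Complex.I) →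
        ∑ b, (p b : ℂ) * z1 b + ∑ s, (q s : ℂ) * z2 s = k * z0) :
    ∃ Y V, Adm T d C N z0 z1 z2 Y V := by
  have hw : (2 * Real.pi * Complex.I : ℂ) ≠ 0 := Complex.two_pi_I_ne_zero
  set θ : Unit ⊕ ((B × B) ⊕ S) → ℂ :=
    Sum.elim (fun _ => 2 * Real.pi * Complex.I) (Sum.elim lam l) with hθ
  have h1 := baker_span (θ := θ) (by
    rintro (j | j | j)
    · change IsAlgebraic ℚ (Complex.exp (2 * Real.pi * Complex.I))
      rw [Complex.exp_two_pi_mul_I]
      exact isAlgebraic_one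
    · exact hlamA j
    · exact hlA j) (WW T d C N) (by
    intro D f
    obtain ⟨Y, V, h2⟩ := lie_der hT hC hlam hA hN hB hell hell1 hP D
    let f' : ℂ →ₗ[QB] ℂ := f.comp (LinearMap.mulLeft QB (2 * Real.pi * Complex.I : ℂ))
    have hf' : ∀ z : ℂ, f' (z / (2 * Real.pi * Complex.I)) = f z := by
      intro z
      change f ((2 * Real.pi * Complex.I) * (z / (2 * Real.pi * Complex.I))) = f z
      rw [mul_div_cancel₀ _ hw]
    have h3 := h2.map hT hB hA f'
    simp only [hf'] at h3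
    exact ⟨_, _, h3⟩) (w := Sum.elim (fun _ => z0) (Sum.elim z1 z2)) (by
    intro p hp
    simp only [Fintype.sum_sum_type, Finset.univ_unique, Finset.sum_singleton, hθ, Sum.elim_inl, Sum.elim_inr,
      PUnit.default_eq_unit] at hp ⊢
    have h2 := hz (-p (Sum.inl ())) (fun b => p (Sum.inr (Sum.inl b))) (fun s => p (Sum.inr (Sum.inr s))) (by
      push_cast
      linear_combination hp)
    push_cast at h2
    linear_combination h2)
  obtain ⟨Y, V, h2⟩ := h1
  exact ⟨Y, V, h2⟩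

end Pool.Agent.X306.MT
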