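import Pool.Agent.X306.MT.Lie

set_option autoImplicit false
set_option linter.unusedVariables false
set_option linter.unusedSectionVars false
set_option linter.unusedSimpArgs false

/-!
# Subtorsors for unipotent variations of mixed Tate motives
-/

open Matrix Module

noncomputable section

namespace Pool.Agent.X306.MT

open Pool.Agent.W516.DR Pool.Agent.W245.EB Pool.Agent.Y102
open Pool.Agent.TH127.PT Pool.Agent.TH119.DR Pool.Agent.Y123.ST
open Pool.Agent.X306.EM (QB_iff)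
open Pool.Agent.X306.RL (LL_br derD)
open Pool.Agent.X306.PL (dB baker_span path_mem)

section exp

variable {N : Type} [Fintype N] [DecidableEq N] {K : Subfield ℂ} {T : Set (Matrix N N ℂ)}

/-- exponentials of nilpotent elements -/
theorem exp_mem (hT : IsSubtorsor K T) {E : Matrix N N ℂ} (hE : fl E ∈ LL T) {m : ℕ} (hm : ee E (m + 1) = 0)
    {x : Matrix N N ℂ} (hx : x ∈ T) (hu : IsUnit ((∑ k ∈ Finset.range (m + 1), ee E k) * x)) :
    (∑ k ∈ Finset.range (m + 1), ee E k) * x ∈ T := by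
  let G : Matrix N N (Polynomial ℂ) := Matrix.of fun i j =>
    ∑ k ∈ Finset.range (m + 1), Polynomial.C ((ee E k * x) i j) * Polynomial.X ^ k
  have hG : ∀ a : ℂ, G.map (Polynomial.eval a) = ∑ k ∈ Finset.range (m + 1), a ^ k • (ee E k * x) := by
    intro a
    ext i j
    change Polynomial.eval a (∑ k ∈ Finset.range (m + 1), Polynomial.C ((ee E k * x) i j) * Polynomial.X ^ k) = _
    rw [Polynomial.eval_finset_sum, Matrix.sum_apply]
    refine Finset.sum_congr rfl fun k _ => ?_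
    rw [Polynomial.eval_mul, Polynomial.eval_C, Polynomial.eval_pow, Polynomial.eval_X, Matrix.smul_apply,
      smul_eq_mul, mul_comm]
  have h0 : G.map (Polynomial.eval 0) = x := by
    rw [hG, Finset.sum_range_succ', pow_zero, one_smul, ee_zero, Matrix.one_mul]
    rw [Finset.sum_eq_zero fun k _ => by rw [zero_pow (Nat.succ_ne_zero k), zero_smul], zero_add]
  have h1 : G.map (Polynomial.eval 1) = (∑ k ∈ Finset.range (m + 1), ee E k) * x := by
    rw [hG, Finset.sum_mul]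
    exact Finset.sum_congr rfl fun k _ => by rw [one_pow, one_smul]
  rw [← h1] at hu ⊢
  refine path_mem hT hE 1 (a := 0) (by rw [Polynomial.eval_one]; exact one_ne_zero) G (fun i j => ?_)
    (by rw [h0]; exact hx) hu
  change 1 * Polynomial.derivative (∑ k ∈ Finset.range (m + 1), Polynomial.C ((ee E k * x) i j) * Polynomial.X ^ k) =
    ∑ n, Polynomial.C (E i n) * ∑ k ∈ Finset.range (m + 1), Polynomial.C ((ee E k * x) n j) * Polynomial.X ^ k
  have h2 : ∑ n, Polynomial.C (E i n) * ∑ k ∈ Finset.range (m + 1),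
      Polynomial.C ((ee E k * x) n j) * Polynomial.X ^ k =
      ∑ k ∈ Finset.range (m + 1), Polynomial.C ((((k + 1 : ℕ) : ℂ) • ee E (k + 1) * x) i j) * Polynomial.X ^ k := by
    simp only [Finset.mul_sum]
    rw [Finset.sum_comm]
    refine Finset.sum_congr rfl fun k _ => ?_
    rw [ee_succ, Matrix.mul_assoc, Matrix.mul_apply, map_sum, Finset.sum_mul]
    refine Finset.sum_congr rfl fun n _ => ?_
    rw [map_mul, mul_assoc]
  rw [h2, one_mul, map_sum, Finset.sum_range_succ', Finset.sum_range_succ _ m, hm, smul_zero, Matrix.zero_mul]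
  have h3 : Polynomial.C ((0 : Matrix N N ℂ) i j) * (Polynomial.X : Polynomial ℂ) ^ m = 0 := by
    rw [Matrix.zero_apply, map_zero, zero_mul]
  rw [h3, pow_zero, mul_one, Polynomial.derivative_C]
  congr 1
  refine Finset.sum_congr rfl fun k _ => ?_
  rw [Polynomial.derivative_C_mul_X_pow, Nat.add_sub_cancel, Matrix.smul_mul, Matrix.smul_apply, smul_eq_mul,
    mul_comm ((ee E (k + 1) * x) i j)]

end exp

variable {B S : Type} [Fintype B] [DecidableEq B] [Fintype S] {d : B → ℕ} {N : S → Matrix B B ℂ}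
  {C : Matrix B B ℂ} {w : ℂ} {T : Set (Matrix (B ⊕ B) (B ⊕ B) ℂ)}

/-- elements with small first component -/
def Elt (T : Set (Matrix (B ⊕ B) (B ⊕ B) ℂ)) (d : B → ℕ) (C : Matrix B B ℂ) (N : S → Matrix B B ℂ)
    (τ : S → ℂ) (k : ℕ) : Prop :=
  ∃ Y V, fl (pt Y V) ∈ LL T ∧ Y ∈ Nor C N ∧ V ∈ nB C N ∧ Y ∈ Ge d k ∧ V - ∑ s, τ s • N s ∈ Ge d 2

/-- raising the degree of the first component -/
theorem raise (hC : Tri d w C) (hN : Deg1 d N) {z1 : B × B → ℂ} {z2 : S → ℂ}
    {YZ VZ : Matrix B B ℂ} (hZ : Adm T d C N 1 z1 z2 YZ VZ) {k : ℕ} (hk : 2 ≤ k) {τ : S → ℂ}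
    (h : Elt T d C N τ k) : Elt T d C N τ (k + 1) := by
  obtain ⟨Y, V, h1, h2, h3, h4, h5⟩ := h
  have hr : (k : ℂ) - 1 ≠ 0 := by
    intro h
    have h6 : (k : ℂ) = ((1 : ℕ) : ℂ) := by
      rw [Nat.cast_one]
      exact sub_eq_zero.1 h
    have h7 := Nat.cast_injective h6
    omega
  set r : ℂ := ((k : ℂ) - 1)⁻¹ with hrd
  have hrr : r * ((k : ℂ) - 1) = 1 := inv_mul_cancel₀ hr
  have hdeg : YZ - Dl d ∈ Ge d 1 := by
    have h6 := hZ.deg
    rwa [one_smul] at h6
  have hV1 := nB_Ge hC hN h3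
  have hVZ1 := nB_Ge hC hN hZ.bet
  refine ⟨r • ((YZ * Y - Y * YZ) + (k : ℂ) • Y), r • (((YZ * V - V * YZ) - (Y * VZ - VZ * Y) + (VZ * V - V * VZ)) +
    (k : ℂ) • V), ?_, ?_, ?_, ?_, ?_⟩
  · rw [pt_smul, pt_add, pt_smul, ← pt_br, fl_smul, fl_add, fl_smul]
    exact (LL T).smul_mem _ ((LL T).add_mem (LL_br hZ.mem h1) ((LL T).smul_mem _ h1))
  · exact (Nor C N).smul_mem _ ((Nor C N).add_mem (Nor_br hZ.nor h2) ((Nor C N).smul_mem _ h2))
  · refine (nB C N).smul_mem _ ((nB C N).add_mem ((nB C N).add_mem ((nB C N).sub_mem (hZ.nor _ h3) (h2 _ hZ.bet))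
      (nB_br hC hZ.bet h3)) ((nB C N).smul_mem _ h3))
  · exact (Ge d (k + 1)).smul_mem _ (br_deg hdeg h4)
  · have h6 : YZ * V - V * YZ + ((1 : ℕ) : ℂ) • V ∈ Ge d 2 := br_deg hdeg hV1
    have h7 : Y * VZ - VZ * Y ∈ Ge d 2 := Ge_mono (by omega) (Ge_br h4 hVZ1)
    have h8 : VZ * V - V * VZ ∈ Ge d 2 := Ge_br hVZ1 hV1
    have h9 := (Ge d 2).add_mem ((Ge d 2).smul_mem r ((Ge d 2).add_mem ((Ge d 2).sub_mem h6 h7) h8)) h5
    refine (congrArg (· ∈ Ge d 2) ?_).mp h9
    have h10 : V = r • (((k : ℂ) - 1) • V) := by rw [smul_smul, hrr, one_smul]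
    have h11 : V - ∑ s, τ s • N s = r • (((k : ℂ) - 1) • V) - ∑ s, τ s • N s := by rw [← h10]
    rw [h11, ← add_sub_assoc, ← smul_add, Nat.cast_one, one_smul, sub_smul, one_smul]
    congr 2
    abel

/-- the elements of the Lie algebra with vanishing first component -/
def mm (T : Set (Matrix (B ⊕ B) (B ⊕ B) ℂ)) (C : Matrix B B ℂ) (N : S → Matrix B B ℂ) : Submodule ℂ (Matrix B B ℂ) where
  carrier := {V | V ∈ nB C N ∧ fl (pt 0 V) ∈ LL T}
  zero_mem' := ⟨(nB C N).zero_mem, by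
    rw [pt_zero, fl_zero]
    exact (LL T).zero_mem⟩
  add_mem' := by
    rintro V V' ⟨h1, h2⟩ ⟨h3, h4⟩
    refine ⟨(nB C N).add_mem h1 h3, ?_⟩
    have h5 := (LL T).add_mem h2 h4
    rwa [← fl_add, ← pt_add, add_zero] at h5
  smul_mem' := by
    rintro a V ⟨h1, h2⟩
    refine ⟨(nB C N).smul_mem a h1, ?_⟩
    have h5 := (LL T).smul_mem a h2
    rwa [← fl_smul, ← pt_smul, smul_zero] at h5

theorem mm_br (hC : Tri d w C) {V V' : Matrix B B ℂ} (h : V ∈ mm T C N) (h' : V' ∈ mm T C N) :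
    V * V' - V' * V ∈ mm T C N := by
  refine ⟨nB_br hC h.1 h'.1, ?_⟩
  have h1 := LL_br h.2 h'.2
  rw [pt_br] at h1
  refine (congrArg (fun X => fl X ∈ LL T) ?_).mp h1
  congr 1
  · rw [Matrix.mul_zero, sub_zero]
  · rw [Matrix.mul_zero, Matrix.zero_mul, Matrix.mul_zero, Matrix.zero_mul, sub_zero, sub_zero, zero_add]

/-- approximation of the elements -/
theorem approx (hC : Tri d w C) (hN : Deg1 d N) (h0 : ∀ τ : S → ℂ, ∃ V ∈ mm T C N, V - ∑ s, τ s • N s ∈ Ge d 2) (k : ℕ)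
    {x : Matrix B B ℂ} (hx : x ∈ qq N k) : ∃ V ∈ mm T C N, V - x ∈ Ge d (k + 2) := by
  classical
  have hadd : ∀ (k : ℕ) (x y : Matrix B B ℂ), (∃ V ∈ mm T C N, V - x ∈ Ge d (k + 2)) →
      (∃ V ∈ mm T C N, V - y ∈ Ge d (k + 2)) → ∃ V ∈ mm T C N, V - (x + y) ∈ Ge d (k + 2) := by
    rintro k x y ⟨V, h1, h2⟩ ⟨V', h3, h4⟩
    refine ⟨V + V', (mm T C N).add_mem h1 h3, (congrArg (· ∈ Ge d (k + 2)) ?_).mp ((Ge d (k + 2)).add_mem h2 h4)⟩
    abel
  have hsmul : ∀ (k : ℕ) (a : ℂ) (x : Matrix B B ℂ), (∃ V ∈ mm T C N, V - x ∈ Ge d (k + 2)) →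
      ∃ V ∈ mm T C N, V - a • x ∈ Ge d (k + 2) := by
    rintro k a x ⟨V, h1, h2⟩
    refine ⟨a • V, (mm T C N).smul_mem a h1, (congrArg (· ∈ Ge d (k + 2)) ?_).mp ((Ge d (k + 2)).smul_mem a h2)⟩
    rw [smul_sub]
  have hzero : ∀ k : ℕ, ∃ V ∈ mm T C N, V - 0 ∈ Ge d (k + 2) := by
    intro k
    refine ⟨0, (mm T C N).zero_mem, ?_⟩
    rw [sub_zero]
    exact (Ge d _).zero_mem
  have hs : ∀ s, ∃ V ∈ mm T C N, V - N s ∈ Ge d 2 := by
    intro s
    obtain ⟨V, h1, h2⟩ := h0 (Pi.single s 1)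
    refine ⟨V, h1, (congrArg (· ∈ Ge d 2) ?_).mp h2⟩
    rw [Finset.sum_eq_single s]
    · rw [Pi.single_eq_same, one_smul]
    · intro s' _ hs'
      rw [Pi.single_eq_of_ne hs', zero_smul]
    · intro h
      exact absurd (Finset.mem_univ _) h
  induction k generalizing x with
  | zero =>
    have h1 : x ∈ Submodule.span ℂ (Set.range N) := hx
    clear hx
    induction h1 using Submodule.span_induction with
    | mem x hx =>
      obtain ⟨s, rfl⟩ := hx
      exact hs s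
    | zero => exact hzero 0
    | add x y _ _ h2 h3 => exact hadd 0 x y h2 h3
    | smul a x _ h2 => exact hsmul 0 a x h2
  | succ k ih =>
    have h1 : x ∈ Submodule.span ℂ {z | ∃ s, ∃ y ∈ qq N k, z = N s * y - y * N s} := hx
    clear hx
    induction h1 using Submodule.span_induction with
    | mem x hx =>
      obtain ⟨s, y, hy, rfl⟩ := hx
      obtain ⟨V, h1, h2⟩ := hs s
      obtain ⟨V', h3, h4⟩ := ih hy
      refine ⟨V * V' - V' * V, mm_br hC h1 h3, ?_⟩
      have hV'1 : V' ∈ Ge d (k + 1) := by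
        have h5 := (Ge d (k + 1)).add_mem (Ge_mono (by omega) h4) (qq_Ge hN k hy)
        rwa [sub_add_cancel] at h5
      have hNs : N s ∈ Ge d 1 := qq_Ge hN 0 (Submodule.subset_span ⟨s, rfl⟩)
      have h5 : (V - N s) * V' - V' * (V - N s) ∈ Ge d (k + 1 + 2) := by
        have h6 := Ge_br h2 hV'1
        have h7 : 2 + (k + 1) = k + 1 + 2 := by omega
        rwa [h7] at h6
      have h6 : N s * (V' - y) - (V' - y) * N s ∈ Ge d (k + 1 + 2) := by
        have h6 := Ge_br hNs h4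
        have h7 : 1 + (k + 2) = k + 1 + 2 := by omega
        rwa [h7] at h6
      refine (congrArg (· ∈ Ge d (k + 1 + 2)) ?_).mp ((Ge d _).add_mem h5 h6)
      simp only [Matrix.sub_mul, Matrix.mul_sub]
      abel
    | zero => exact hzero _
    | add x y _ _ h2 h3 => exact hadd _ x y h2 h3
    | smul a x _ h2 => exact hsmul _ a x h2

/-- the Lie algebra contains the Betti form -/
theorem full (hC : Tri d w C) (hN : Deg1 d N) (h0 : ∀ τ : S → ℂ, ∃ V ∈ mm T C N, V - ∑ s, τ s • N s ∈ Ge d 2)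
    {V : Matrix B B ℂ} (hV : V ∈ nB C N) : V ∈ mm T C N := by
  have key : ∀ e k : ℕ, top d ≤ k + 1 + e → ∀ V ∈ nB C N, V ∈ Ge d (k + 1) → V ∈ mm T C N := by
    intro e
    induction e with
    | zero =>
      intro k hk V h1 h2
      rw [Ge_top (by omega) h2]
      exact (mm T C N).zero_mem
    | succ e ih =>
      intro k hk V h1 h2
      set x : Matrix B B ℂ := C⁻¹ * V * C with hx
      have hx1 : x ∈ nn N := h1
      have hx2 : x ∈ Ge d (k + 1) := hC.conj_mem' h2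
      have h3 := nn_pr hN k hx1
      obtain ⟨V', h4, h5⟩ := approx hC hN h0 k (Submodule.smul_mem _ (w ^ (k + 1))⁻¹ h3)
      have h6 := hC.conj hx2
      rw [hx, nB_conj hC, ← hx] at h6
      have h7 : V - V' ∈ Ge d (k + 1 + 1) := by
        have h8 := (Ge d (k + 1 + 1)).sub_mem ((Ge d (k + 1 + 1)).add_mem h6
          ((Ge d (k + 1 + 1)).smul_mem (w ^ (k + 1))⁻¹ (sub_pr hx2))) h5
        refine (congrArg (· ∈ Ge d (k + 1 + 1)) ?_).mp h8
        rw [smul_sub]
        abel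
      have h8 := ih (k + 1) (by omega) (V - V') ((nB C N).sub_mem h1 h4.1) h7
      have h9 := (mm T C N).add_mem h8 h4
      rwa [sub_add_cancel] at h9
  exact key (top d) 0 (by omega) V hV (nB_Ge hC hN hV)

variable {l : S → ℂ} {ell : Matrix B B ℂ} {lam : B × B → ℂ}

/-- **Main theorem.** -/
theorem main (hT : IsSubtorsor QB T) (hC : Tri d (2 * Real.pi * Complex.I) C)
    (hlam : ∀ b b', d b' = d b + 1 → C b b' = (2 * Real.pi * Complex.I) ^ d b * lam (b, b'))
    (hA : ∀ s, AlgM (N s)) (hN : Deg1 d N) (hB : DefB C N) (hell : ell ∈ nn N)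
    (hell1 : ell - ∑ s, l s • N s ∈ Ge d 2) (hP : fromBlocks C 0 0 (C * ex d ell) ∈ T)
    (hlamA : ∀ b, IsAlgebraic ℚ (Complex.exp (lam b))) (hlA : ∀ s, IsAlgebraic ℚ (Complex.exp (l s)))
    (hind : ∀ (k : ℤ) (p : B × B → ℤ) (q : S → ℤ),
      ∑ b, (p b : ℂ) * lam b + ∑ s, (q s : ℂ) * l s = k * (2 * Real.pi * Complex.I) → q = 0)
    {n : Matrix B B ℂ} (hn : n ∈ nn N) {x : Matrix (B ⊕ B) (B ⊕ B) ℂ} (hx : x ∈ T) :
    fromBlocks 1 0 0 (C * ex d n * C⁻¹) * x ∈ T := by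
  have hw : (2 * Real.pi * Complex.I : ℂ) ≠ 0 := Complex.two_pi_I_ne_zero
  obtain ⟨YZ, VZ, hZ⟩ := lie_mem hT hC hlam hA hN hB hell hell1 hP hlamA hlA (z0 := 1)
    (z1 := fun b => lam b / (2 * Real.pi * Complex.I)) (z2 := fun s => l s / (2 * Real.pi * Complex.I)) (by
    intro k p q h
    have h1 : ∑ b, (p b : ℂ) * (lam b / (2 * Real.pi * Complex.I)) + ∑ s, (q s : ℂ) * (l s / (2 * Real.pi * Complex.I)) =
        (∑ b, (p b : ℂ) * lam b + ∑ s, (q s : ℂ) * l s) / (2 * Real.pi * Complex.I) := by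
      rw [add_div, Finset.sum_div, Finset.sum_div]
      congr 1
      · exact Finset.sum_congr rfl fun b _ => by ring
      · exact Finset.sum_congr rfl fun b _ => by ring
    rw [h1, h, mul_div_assoc, div_self hw])
  have h0 : ∀ τ : S → ℂ, ∃ V ∈ mm T C N, V - ∑ s, τ s • N s ∈ Ge d 2 := by
    intro τ
    obtain ⟨Y, V, h⟩ := lie_mem hT hC hlam hA hN hB hell hell1 hP hlamA hlA (z0 := 0) (z1 := 0) (z2 := τ) (by
      intro k p q h
      rw [hind k p q h]
      simp)
    have h2 : Elt T d C N τ 2 := by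
      refine ⟨Y, V, h.mem, h.nor, h.bet, ?_, h.two⟩
      intro b b' hb
      rcases lt_or_ge (d b') (d b + 1) with h3 | h3
      · have h4 := h.deg b b' h3
        rw [zero_smul, sub_zero] at h4
        exact h4
      · exact h.one b b' (by omega)
    have h3 : ∀ k : ℕ, Elt T d C N τ (k + 2) := by
      intro k
      induction k with
      | zero => exact h2
      | succ k ih => exact raise hC hN hZ (by omega) ih
    obtain ⟨Y', V', h4, h5, h6, h7, h8⟩ := h3 (top d)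
    have h9 : Y' = 0 := Ge_top (by omega) h7
    rw [h9] at h4
    exact ⟨V', ⟨h6, h4⟩, h8⟩
  -- the exponential
  set V : Matrix B B ℂ := C * n * C⁻¹ with hV
  have hVn : V ∈ nB C N := conj_nB hC hn
  have hV1 := nB_Ge hC hN hVn
  have hVm := full hC hN h0 hVn
  have hE : fl (fromBlocks 0 0 0 V) ∈ LL T := by
    have h1 := hVm.2
    unfold pt at h1
    rwa [zero_add] at h1
  have hpow : ∀ k : ℕ, (fromBlocks 0 0 0 V : Matrix (B ⊕ B) (B ⊕ B) ℂ) ^ (k + 1) = fromBlocks 0 0 0 (V ^ (k + 1)) := by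
    intro k
    induction k with
    | zero => rw [zero_add, pow_one, pow_one]
    | succ k ih =>
      rw [pow_succ, ih, fromBlocks_multiply]
      simp only [Matrix.mul_zero, Matrix.zero_mul, add_zero, zero_add]
      rw [← pow_succ]
  have hee : ∀ k : ℕ, ee (fromBlocks 0 0 0 V : Matrix (B ⊕ B) (B ⊕ B) ℂ) (k + 1) = fromBlocks 0 0 0 (ee V (k + 1)) := by
    intro k
    unfold ee
    rw [hpow, fromBlocks_smul]
    simp only [smul_zero]
  obtain ⟨m, hm⟩ : ∃ m, top d = m + 1 := ⟨top d - 1, by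
    have : 0 < top d := Nat.succ_pos _
    omega⟩
  have hsum : ∑ k ∈ Finset.range (m + 1), ee (fromBlocks 0 0 0 V : Matrix (B ⊕ B) (B ⊕ B) ℂ) k =
      fromBlocks 1 0 0 (ex d V) := by
    have h2 : ∀ K : ℕ, ∑ k ∈ Finset.range (K + 1), ee (fromBlocks 0 0 0 V : Matrix (B ⊕ B) (B ⊕ B) ℂ) k =
        fromBlocks 1 0 0 (∑ k ∈ Finset.range (K + 1), ee V k) := by
      intro K
      induction K with
      | zero => simp only [zero_add, Finset.sum_range_one, ee_zero, fromBlocks_one]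
      | succ K ih =>
        rw [Finset.sum_range_succ, ih, hee, fromBlocks_add, Finset.sum_range_succ _ (K + 1)]
        simp only [add_zero]
    rw [h2, ← hm]
    rfl
  have hconj : ex d V = C * ex d n * C⁻¹ := by
    have h2 : ∀ k : ℕ, V ^ k = C * n ^ k * C⁻¹ := by
      intro k
      induction k with
      | zero => rw [pow_zero, pow_zero, Matrix.mul_one, hC.mul_inv]
      | succ k ih =>
        rw [pow_succ, ih, pow_succ, hV]
        have h3 : C * n ^ k * C⁻¹ * (C * n * C⁻¹) = C * n ^ k * (C⁻¹ * C) * (n * C⁻¹) := by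
          simp only [Matrix.mul_assoc]
        rw [h3, hC.inv_mul, Matrix.mul_one]
        simp only [Matrix.mul_assoc]
    unfold ex ee
    rw [Finset.mul_sum, Finset.sum_mul]
    refine Finset.sum_congr rfl fun k _ => ?_
    rw [h2, Matrix.mul_smul, Matrix.smul_mul]
  have h1 := exp_mem hT hE (m := m) (by
    rw [hee, ← hm, ee_top hV1 le_rfl, fromBlocks_zero]) hx (by
    rw [hsum]
    refine IsUnit.mul ?_ (hT.isUnit x hx)
    refine IsUnit.of_mul_eq_one (fromBlocks 1 0 0 (ex d (-V))) ?_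
    rw [fromBlocks_multiply]
    simp only [Matrix.mul_zero, Matrix.zero_mul, add_zero, zero_add, Matrix.mul_one]
    rw [ex_mul_neg hV1, fromBlocks_one])
  rwa [hsum, hconj] at h1

end Pool.Agent.X306.MT
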