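import Pool.Agent.X306.MT.Fil

set_option autoImplicit false
set_option linter.unusedVariables false
set_option linter.unusedSectionVars false
set_option linter.unusedSimpArgs false

/-!
# The Lie algebra generated by matrices of degree one
-/

open Matrix

noncomputable section

namespace Pool.Agent.X306.MT

variable {B S : Type} [Fintype B] [DecidableEq B] {d : B → ℕ}

/-- the left normed commutators -/
def qq (N : S → Matrix B B ℂ) : ℕ → Submodule ℂ (Matrix B B ℂ)
  | 0 => Submodule.span ℂ (Set.range N)
  | k + 1 => Submodule.span ℂ {z | ∃ s, ∃ y ∈ qq N k, z = N s * y - y * N s}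

/-- the Lie algebra -/
def nn (N : S → Matrix B B ℂ) : Submodule ℂ (Matrix B B ℂ) := ⨆ k, qq N k

variable {N : S → Matrix B B ℂ}

theorem qq_le (k : ℕ) : qq N k ≤ nn N := le_iSup (qq N) k

theorem qq_step (s : S) {k : ℕ} {y : Matrix B B ℂ} (hy : y ∈ qq N k) : N s * y - y * N s ∈ qq N (k + 1) :=
  Submodule.subset_span ⟨s, y, hy, rfl⟩

theorem qq_br {i j : ℕ} {x y : Matrix B B ℂ} (hx : x ∈ qq N i) (hy : y ∈ qq N j) : x * y - y * x ∈ qq N (i + j + 1) := by
  induction i generalizing x y j with
  | zero =>
    have h1 : x ∈ Submodule.span ℂ (Set.range N) := hx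
    clear hx
    induction h1 using Submodule.span_induction with
    | mem x hx =>
      obtain ⟨s, rfl⟩ := hx
      rw [zero_add]
      exact qq_step s hy
    | zero =>
      rw [Matrix.zero_mul, Matrix.mul_zero, sub_zero]
      exact Submodule.zero_mem _
    | add x x' _ _ h2 h3 =>
      have h4 := Submodule.add_mem _ h2 h3
      refine (congrArg (· ∈ qq N (0 + j + 1)) ?_).mp h4
      rw [Matrix.add_mul, Matrix.mul_add]
      abel
    | smul a x _ h2 =>
      have h4 := Submodule.smul_mem _ a h2
      refine (congrArg (· ∈ qq N (0 + j + 1)) ?_).mp h4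
      rw [Matrix.smul_mul, Matrix.mul_smul, smul_sub]
  | succ i ih =>
    have h1 : x ∈ Submodule.span ℂ {z | ∃ s, ∃ y ∈ qq N i, z = N s * y - y * N s} := hx
    clear hx
    induction h1 using Submodule.span_induction with
    | mem x hx =>
      obtain ⟨s, x', hx', rfl⟩ := hx
      have h2 := qq_step s (ih hx' hy)
      have h3 := ih hx' (qq_step s hy)
      have h5 : i + (j + 1) + 1 = i + 1 + j + 1 := by omega
      have h6 : i + j + 1 + 1 = i + 1 + j + 1 := by omega
      rw [h5] at h3
      rw [h6] at h2
      refine (congrArg (· ∈ qq N (i + 1 + j + 1)) ?_).mp (Submodule.sub_mem _ h2 h3)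
      simp only [Matrix.sub_mul, Matrix.mul_sub, Matrix.mul_assoc]
      abel
    | zero =>
      rw [Matrix.zero_mul, Matrix.mul_zero, sub_zero]
      exact Submodule.zero_mem _
    | add x x' _ _ h2 h3 =>
      have h4 := Submodule.add_mem _ h2 h3
      refine (congrArg (· ∈ qq N (i + 1 + j + 1)) ?_).mp h4
      rw [Matrix.add_mul, Matrix.mul_add]
      abel
    | smul a x _ h2 =>
      have h4 := Submodule.smul_mem _ a h2
      refine (congrArg (· ∈ qq N (i + 1 + j + 1)) ?_).mp h4
      rw [Matrix.smul_mul, Matrix.mul_smul, smul_sub]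

theorem nn_br {x y : Matrix B B ℂ} (hx : x ∈ nn N) (hy : y ∈ nn N) : x * y - y * x ∈ nn N := by
  induction hx using Submodule.iSup_induction' with
  | mem i x hx =>
    induction hy using Submodule.iSup_induction' with
    | mem j y hy => exact qq_le _ (qq_br hx hy)
    | zero =>
      rw [Matrix.zero_mul, Matrix.mul_zero, sub_zero]
      exact Submodule.zero_mem _
    | add y y' _ _ h2 h3 =>
      have h4 := Submodule.add_mem _ h2 h3
      refine (congrArg (· ∈ nn N) ?_).mp h4
      rw [Matrix.add_mul, Matrix.mul_add]
      abel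
  | zero =>
    rw [Matrix.zero_mul, Matrix.mul_zero, sub_zero]
    exact Submodule.zero_mem _
  | add x x' _ _ h2 h3 =>
    have h4 := Submodule.add_mem _ h2 h3
    refine (congrArg (· ∈ nn N) ?_).mp h4
    rw [Matrix.add_mul, Matrix.mul_add]
    abel

/-- The Lie algebra generated by the matrices: the smallest subspace which contains them and the commutators of its
elements. -/
def lieGen (N : S → Matrix B B ℂ) : Submodule ℂ (Matrix B B ℂ) :=
  sInf {U | (∀ s, N s ∈ U) ∧ ∀ x ∈ U, ∀ y ∈ U, x * y - y * x ∈ U}

theorem lieGen_eq : lieGen N = nn N := by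
  apply le_antisymm
  · exact sInf_le ⟨fun s => qq_le 0 (Submodule.subset_span ⟨s, rfl⟩), fun x hx y hy => nn_br hx hy⟩
  · refine le_sInf ?_
    rintro U ⟨h1, h2⟩
    refine iSup_le fun k => ?_
    induction k with
    | zero =>
      refine Submodule.span_le.2 ?_
      rintro _ ⟨s, rfl⟩
      exact h1 s
    | succ k ih =>
      refine Submodule.span_le.2 ?_
      rintro _ ⟨s, y, hy, rfl⟩
      exact h2 _ (h1 s) _ (ih hy)

/-- matrices which raise the degree by one -/
def Deg1 (d : B → ℕ) (N : S → Matrix B B ℂ) : Prop := ∀ s b b', d b' ≠ d b + 1 → N s b b' = 0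

theorem qq_hom (hN : Deg1 d N) (k : ℕ) {x : Matrix B B ℂ} (hx : x ∈ qq N k) (b b' : B) (h : d b' ≠ d b + (k + 1)) :
    x b b' = 0 := by
  induction k generalizing x b b' with
  | zero =>
    have h1 : x ∈ Submodule.span ℂ (Set.range N) := hx
    clear hx
    induction h1 using Submodule.span_induction with
    | mem x hx =>
      obtain ⟨s, rfl⟩ := hx
      exact hN s b b' h
    | zero => rfl
    | add x x' _ _ h2 h3 => rw [Matrix.add_apply, h2, h3, add_zero]
    | smul a x _ h2 => rw [Matrix.smul_apply, h2, smul_zero]
  | succ k ih =>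
    have h1 : x ∈ Submodule.span ℂ {z | ∃ s, ∃ y ∈ qq N k, z = N s * y - y * N s} := hx
    clear hx
    induction h1 using Submodule.span_induction with
    | mem x hx =>
      obtain ⟨s, y, hy, rfl⟩ := hx
      rw [Matrix.sub_apply, Matrix.mul_apply, Matrix.mul_apply]
      rw [Finset.sum_eq_zero, Finset.sum_eq_zero, sub_zero]
      · intro c _
        by_cases h2 : d c = d b + (k + 1)
        · rw [hN s c b' (by omega), mul_zero]
        · rw [ih hy b c h2, zero_mul]
      · intro c _
        by_cases h2 : d c = d b + 1
        · rw [ih hy c b' (by omega), mul_zero]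
        · rw [hN s b c h2, zero_mul]
    | zero => rfl
    | add x x' _ _ h2 h3 => rw [Matrix.add_apply, h2, h3, add_zero]
    | smul a x _ h2 => rw [Matrix.smul_apply, h2, smul_zero]

theorem qq_Ge (hN : Deg1 d N) (k : ℕ) {x : Matrix B B ℂ} (hx : x ∈ qq N k) : x ∈ Ge d (k + 1) :=
  fun b b' h => qq_hom hN k hx b b' (by omega)

theorem nn_Ge (hN : Deg1 d N) {x : Matrix B B ℂ} (hx : x ∈ nn N) : x ∈ Ge d 1 := by
  have h1 : nn N ≤ Ge d 1 := iSup_le fun k x hx => Ge_mono (by omega) (qq_Ge hN k hx)
  exact h1 hx

theorem nn_pr (hN : Deg1 d N) (k : ℕ) {x : Matrix B B ℂ} (hx : x ∈ nn N) : pr d (k + 1) x ∈ qq N k := by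
  induction hx using Submodule.iSup_induction' with
  | mem i x hx =>
    by_cases h : i = k
    · subst h
      have h1 : pr d (i + 1) x = x := by
        ext b b'
        rw [pr_apply]
        split_ifs with h2
        · rfl
        · exact (qq_hom hN i hx b b' h2).symm
      rw [h1]
      exact hx
    · have h1 : pr d (k + 1) x = 0 := by
        ext b b'
        rw [pr_apply]
        split_ifs with h2
        · exact qq_hom hN i hx b b' (by omega)
        · rfl
      rw [h1]
      exact Submodule.zero_mem _
  | zero =>
    rw [map_zero]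
    exact Submodule.zero_mem _
  | add x x' _ _ h2 h3 =>
    rw [map_add]
    exact Submodule.add_mem _ h2 h3

/-- derivations preserve the Lie algebra if the generators have constant entries -/
theorem qq_der (D : Derivation ℚ ℂ ℂ) (hD : ∀ s b b', D (N s b b') = 0) (k : ℕ) {x : Matrix B B ℂ}
    (hx : x ∈ qq N k) : x.map D ∈ qq N k := by
  have hsm : ∀ (a : ℂ) (x : Matrix B B ℂ), (a • x).map D = D a • x + a • x.map D := by
    intro a x
    ext b b'
    simp only [Matrix.map_apply, Matrix.smul_apply, Matrix.add_apply, smul_eq_mul, Derivation.leibniz]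
    ring
  have had : ∀ x y : Matrix B B ℂ, (x + y).map D = x.map D + y.map D := by
    intro x y
    ext b b'
    simp only [Matrix.map_apply, Matrix.add_apply, map_add]
  induction k generalizing x with
  | zero =>
    have h1 : x ∈ Submodule.span ℂ (Set.range N) := hx
    clear hx
    induction h1 using Submodule.span_induction with
    | mem x hx =>
      obtain ⟨s, rfl⟩ := hx
      have h2 : (N s).map D = 0 := by
        ext b b'
        exact hD s b b'
      rw [h2]
      exact Submodule.zero_mem _
    | zero =>
      have h2 : (0 : Matrix B B ℂ).map D = 0 := by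
        ext b b'
        exact map_zero D
      rw [h2]
      exact Submodule.zero_mem _
    | add x x' _ _ h2 h3 =>
      rw [had]
      exact Submodule.add_mem _ h2 h3
    | smul a x h3 h2 =>
      rw [hsm]
      exact Submodule.add_mem _ (Submodule.smul_mem _ _ h3) (Submodule.smul_mem _ _ h2)
  | succ k ih =>
    have h1 : x ∈ Submodule.span ℂ {z | ∃ s, ∃ y ∈ qq N k, z = N s * y - y * N s} := hx
    clear hx
    induction h1 using Submodule.span_induction with
    | mem x hx =>
      obtain ⟨s, y, hy, rfl⟩ := hx
      have h2 : (N s * y - y * N s).map D = N s * y.map D - y.map D * N s := by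
        ext b b'
        simp only [Matrix.map_apply, Matrix.sub_apply, Matrix.mul_apply, map_sub, map_sum, Derivation.leibniz, hD,
          smul_zero, add_zero, zero_add, smul_eq_mul]
        congr 1
        · exact Finset.sum_congr rfl fun c _ => by ring
        · exact Finset.sum_congr rfl fun c _ => by ring
      rw [h2]
      exact qq_step s (ih hy)
    | zero =>
      have h2 : (0 : Matrix B B ℂ).map D = 0 := by
        ext b b'
        exact map_zero D
      rw [h2]
      exact Submodule.zero_mem _
    | add x x' _ _ h2 h3 =>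
      rw [had]
      exact Submodule.add_mem _ h2 h3
    | smul a x h3 h2 =>
      rw [hsm]
      exact Submodule.add_mem _ (Submodule.smul_mem _ _ h3) (Submodule.smul_mem _ _ h2)

theorem nn_der (D : Derivation ℚ ℂ ℂ) (hD : ∀ s b b', D (N s b b') = 0) {x : Matrix B B ℂ}
    (hx : x ∈ nn N) : x.map D ∈ nn N := by
  induction hx using Submodule.iSup_induction' with
  | mem i x hx => exact qq_le _ (qq_der D hD i hx)
  | zero =>
    have h2 : (0 : Matrix B B ℂ).map D = 0 := by
      ext b b'
      exact map_zero D
    rw [h2]
    exact Submodule.zero_mem _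
  | add x x' _ _ h2 h3 =>
    have had : (x + x').map D = x.map D + x'.map D := by
      ext b b'
      simp only [Matrix.map_apply, Matrix.add_apply, map_add]
    rw [had]
    exact Submodule.add_mem _ h2 h3

end Pool.Agent.X306.MT
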