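import Pool.Agent.X306.MT.Exp

set_option autoImplicit false
set_option linter.unusedVariables false
set_option linter.unusedSectionVars false
set_option linter.unusedSimpArgs false

/-!
# Solutions of differential equations
-/

open Matrix Set

noncomputable section

namespace Pool.Agent.X306.MT

variable {B S : Type} [Fintype B] [DecidableEq B] {d : B → ℕ} {N : S → Matrix B B ℂ}

/-- the derivative of the terms of the exponential at `X` in the direction `Y` -/
def ed (X Y : Matrix B B ℂ) : ℕ → Matrix B B ℂ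
  | 0 => 0
  | k + 1 => (((k + 1 : ℕ) : ℂ))⁻¹ • (Y * ee X k + X * ed X Y k)

theorem ed_succ (X Y : Matrix B B ℂ) (k : ℕ) : ((k + 1 : ℕ) : ℂ) • ed X Y (k + 1) = Y * ee X k + X * ed X Y k := by
  have h3 : ((k + 1 : ℕ) : ℂ) ≠ 0 := Nat.cast_ne_zero.2 (Nat.succ_ne_zero k)
  rw [ed, smul_smul, mul_inv_cancel₀ h3, one_smul]

/-- the convolution -/
def cu (X Y : Matrix B B ℂ) (k : ℕ) : Matrix B B ℂ :=
  ∑ p ∈ Finset.HasAntidiagonal.antidiagonal k, ed X Y p.1 * ee (-X) p.2

theorem cu_zero (X Y : Matrix B B ℂ) : cu X Y 0 = 0 := by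
  unfold cu
  rw [Finset.Nat.antidiagonal_zero, Finset.sum_singleton, ed, Matrix.zero_mul]

theorem cu_succ (X Y : Matrix B B ℂ) (k : ℕ) :
    ((k + 1 : ℕ) : ℂ) • cu X Y (k + 1) = X * cu X Y k - cu X Y k * X + Y * cw X k := by
  have h1 := split_sum (ed X Y) (ee (-X)) (fun k => Y * ee X k + X * ed X Y k)
    (fun k => (-X) * ee (-X) k) (ed_succ X Y) (ee_succ (-X)) k
  unfold cu
  rw [h1]
  unfold cw
  simp only [Matrix.add_mul, Finset.sum_add_distrib, Finset.mul_sum, Finset.sum_mul]
  have h2 : ∑ p ∈ Finset.HasAntidiagonal.antidiagonal k, ed X Y p.1 * (-X * ee (-X) p.2) =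
      -∑ p ∈ Finset.HasAntidiagonal.antidiagonal k, ed X Y p.1 * ee (-X) p.2 * X := by
    rw [← Finset.sum_neg_distrib]
    refine Finset.sum_congr rfl fun p _ => ?_
    rw [ee_comm (-X), Matrix.mul_neg, Matrix.mul_neg, Matrix.mul_assoc]
  rw [h2]
  simp only [Matrix.mul_assoc]
  abel

theorem cu_mem {X Y : Matrix B B ℂ} (hX : X ∈ nn N) (hY : Y ∈ nn N) (k : ℕ) : cu X Y k ∈ nn N := by
  induction k with
  | zero =>
    rw [cu_zero]
    exact (nn N).zero_mem
  | succ k ih =>
    have h1 := cu_succ X Y k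
    have h2 : X * cu X Y k - cu X Y k * X + Y * cw X k ∈ nn N := by
      refine (nn N).add_mem (nn_br hX ih) ?_
      rcases k with _ | k
      · rw [cw_zero, Matrix.mul_one]
        exact hY
      · rw [cw_succ, Matrix.mul_zero]
        exact (nn N).zero_mem
    rw [← h1] at h2
    have h3 : ((k + 1 : ℕ) : ℂ) ≠ 0 := Nat.cast_ne_zero.2 (Nat.succ_ne_zero k)
    have h4 := (nn N).smul_mem ((k + 1 : ℕ) : ℂ)⁻¹ h2
    rwa [smul_smul, inv_mul_cancel₀ h3, one_smul] at h4

/-- the derivative of the exponential -/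
def dx (d : B → ℕ) (X Y : Matrix B B ℂ) : Matrix B B ℂ := ∑ k ∈ Finset.range (top d), ed X Y k

theorem ed_Ge {X Y : Matrix B B ℂ} (hX : X ∈ Ge d 1) (hY : Y ∈ Ge d 1) (k : ℕ) : ed X Y k ∈ Ge d k := by
  induction k with
  | zero => exact (Ge d 0).zero_mem
  | succ k ih =>
    rw [ed]
    refine (Ge d (k + 1)).smul_mem _ ((Ge d (k + 1)).add_mem ?_ ?_)
    · have h1 : ee X k ∈ Ge d k := by
        unfold ee
        have h2 := Ge_pow hX k
        rw [mul_one] at h2
        exact (Ge d k).smul_mem _ h2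
      have h2 := Ge_mul hY h1
      rwa [add_comm 1 k] at h2
    · have h2 := Ge_mul hX ih
      rwa [add_comm 1 k] at h2

theorem dx_mem (hN : Deg1 d N) {X Y : Matrix B B ℂ} (hX : X ∈ nn N) (hY : Y ∈ nn N) :
    dx d X Y * ex d (-X) ∈ nn N := by
  have hX1 := nn_Ge hN hX
  have hY1 := nn_Ge hN hY
  have h1 : dx d X Y * ex d (-X) = ∑ k ∈ Finset.range (2 * top d), cu X Y k := by
    unfold dx ex cu
    rw [sum_conv (fun k hk => Ge_top hk (ed_Ge hX1 hY1 k)) (fun k hk => ee_top ((Ge d 1).neg_mem hX1) hk)]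
  rw [h1]
  exact (nn N).sum_mem fun k _ => cu_mem hX hY k

/-- differentiable families of matrices -/
def HD (F F' : ℝ → Matrix B B ℂ) : Prop :=
  ∀ t ∈ Icc (0 : ℝ) 1, ∀ b b', HasDerivWithinAt (fun t => F t b b') (F' t b b') (Icc 0 1) t

theorem HD.mul {F F' G G' : ℝ → Matrix B B ℂ} (hF : HD F F') (hG : HD G G') :
    HD (fun t => F t * G t) (fun t => F' t * G t + F t * G' t) := by
  intro t ht b b'
  have h1 : ∀ c ∈ Finset.univ, HasDerivWithinAt (fun t => F t b c * G t c b')
      (F' t b c * G t c b' + F t b c * G' t c b') (Icc (0 : ℝ) 1) t := fun c _ =>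
    (hF t ht b c).mul (hG t ht c b')
  have h2 := HasDerivWithinAt.fun_sum h1
  have h3 : (fun t => (F t * G t) b b') = fun t => ∑ c, F t b c * G t c b' := by
    funext t
    rw [Matrix.mul_apply]
  rw [h3]
  refine h2.congr_deriv ?_
  change _ = (F' t * G t + F t * G' t) b b'
  rw [Matrix.add_apply, Matrix.mul_apply, Matrix.mul_apply, ← Finset.sum_add_distrib]

theorem HD.add {F F' G G' : ℝ → Matrix B B ℂ} (hF : HD F F') (hG : HD G G') :
    HD (fun t => F t + G t) (fun t => F' t + G' t) :=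
  fun t ht b b' => (hF t ht b b').add (hG t ht b b')

theorem HD.neg {F F' : ℝ → Matrix B B ℂ} (hF : HD F F') : HD (fun t => -F t) (fun t => -F' t) :=
  fun t ht b b' => (hF t ht b b').neg

theorem HD.smul (a : ℂ) {F F' : ℝ → Matrix B B ℂ} (hF : HD F F') : HD (fun t => a • F t) (fun t => a • F' t) :=
  fun t ht b b' => (hF t ht b b').const_mul a

theorem HD.const (X : Matrix B B ℂ) : HD (fun _ => X) (fun _ => 0) :=
  fun t ht b b' => hasDerivWithinAt_const t _ (X b b')

theorem HD.sum {ι : Type} (s : Finset ι) {F F' : ι → ℝ → Matrix B B ℂ} (h : ∀ i ∈ s, HD (F i) (F' i)) :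
    HD (fun t => ∑ i ∈ s, F i t) (fun t => ∑ i ∈ s, F' i t) := by
  intro t ht b b'
  have h2 := HasDerivWithinAt.fun_sum (fun i hi => h i hi t ht b b')
  have h3 : (fun t => (∑ i ∈ s, F i t) b b') = fun t => ∑ i ∈ s, F i t b b' := by
    funext t
    rw [Matrix.sum_apply]
  rw [h3]
  refine h2.congr_deriv ?_
  change _ = (∑ i ∈ s, F' i t) b b'
  rw [Matrix.sum_apply]

theorem HD.pr (k : ℕ) {F F' : ℝ → Matrix B B ℂ} (hF : HD F F') : HD (fun t => pr d k (F t)) (fun t => pr d k (F' t)) := by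
  intro t ht b b'
  simp only [pr_apply]
  split_ifs with h
  · exact hF t ht b b'
  · exact hasDerivWithinAt_const t _ 0

theorem HD.ee {X X' : ℝ → Matrix B B ℂ} (hX : HD X X') (k : ℕ) :
    HD (fun t => MT.ee (X t) k) (fun t => ed (X t) (X' t) k) := by
  induction k with
  | zero =>
    have h1 : (fun t => MT.ee (X t) 0) = fun _ => 1 := funext fun t => ee_zero _
    rw [h1]
    exact HD.const 1
  | succ k ih =>
    have h1 : (fun t => MT.ee (X t) (k + 1)) = fun t => (((k + 1 : ℕ) : ℂ))⁻¹ • (X t * MT.ee (X t) k) := by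
      funext t
      have h3 : ((k + 1 : ℕ) : ℂ) ≠ 0 := Nat.cast_ne_zero.2 (Nat.succ_ne_zero k)
      rw [← ee_succ, smul_smul, inv_mul_cancel₀ h3, one_smul]
    rw [h1]
    exact (hX.mul ih).smul _

theorem HD.ex {X X' : ℝ → Matrix B B ℂ} (hX : HD X X') :
    HD (fun t => MT.ex d (X t)) (fun t => dx d (X t) (X' t)) := HD.sum _ fun k _ => hX.ee k

/-- linear functionals -/
theorem HD.fun {F F' : ℝ → Matrix B B ℂ} (hF : HD F F') (φ : Matrix B B ℂ →ₗ[ℂ] ℂ) {t : ℝ} (ht : t ∈ Icc (0 : ℝ) 1) :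
    HasDerivWithinAt (fun t => φ (F t)) (φ (F' t)) (Icc 0 1) t := by
  have h1 : ∀ X : Matrix B B ℂ, φ X = ∑ b, ∑ b', φ (Matrix.single b b' 1) * X b b' := by
    intro X
    conv_lhs => rw [Matrix.matrix_eq_sum_single X]
    rw [map_sum]
    refine Finset.sum_congr rfl fun b _ => ?_
    rw [map_sum]
    refine Finset.sum_congr rfl fun b' _ => ?_
    have h2 : Matrix.single b b' (X b b') = X b b' • Matrix.single b b' (1 : ℂ) := by
      rw [Matrix.smul_single, smul_eq_mul, mul_one]
    rw [h2, map_smul, smul_eq_mul, mul_comm]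
  have h2 : (fun t => φ (F t)) = fun t => ∑ b, ∑ b', φ (Matrix.single b b' 1) * F t b b' := funext fun t => h1 _
  rw [h2, h1]
  refine HasDerivWithinAt.fun_sum fun b _ => HasDerivWithinAt.fun_sum fun b' _ => ?_
  exact (hF t ht b b').const_mul _

theorem const_of_zero' {φ : ℝ → ℂ} (h : ∀ t ∈ Icc (0 : ℝ) 1, HasDerivWithinAt φ 0 (Icc 0 1) t) {t : ℝ}
    (ht : t ∈ Icc (0 : ℝ) 1) : φ t = φ 0 := by
  have h1 := (convex_Icc (0 : ℝ) 1).norm_image_sub_le_of_norm_hasDerivWithin_le (C := 0) (f := φ)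
    (f' := fun _ => 0) h (fun t _ => by rw [norm_zero]) (left_mem_Icc.2 zero_le_one) ht
  rw [zero_mul] at h1
  exact sub_eq_zero.1 (norm_le_zero_iff.1 h1)

/-- families with derivative in a subspace -/
theorem HD.mem {F F' : ℝ → Matrix B B ℂ} (hF : HD F F') (W : Submodule ℂ (Matrix B B ℂ))
    (h' : ∀ t ∈ Icc (0 : ℝ) 1, F' t ∈ W) (h0 : F 0 ∈ W) {t : ℝ} (ht : t ∈ Icc (0 : ℝ) 1) : F t ∈ W := by
  by_contra hcon
  obtain ⟨φ, h1, h2⟩ := Submodule.exists_le_ker_of_notMem hcon
  apply h1
  rw [const_of_zero' (φ := fun t => φ (F t)) (fun t ht => by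
    have h3 := hF.fun φ ht
    have h4 : φ (F' t) = 0 := h2 (h' t ht)
    rwa [h4] at h3) ht]
  exact h2 h0

/-- the approximate solutions -/
theorem approxODE (hN : Deg1 d N) {F A : ℝ → Matrix B B ℂ} {ℓ₀ : Matrix B B ℂ} (hℓ₀ : ℓ₀ ∈ nn N)
    (hA : ∀ t ∈ Icc (0 : ℝ) 1, A t ∈ nn N) (hF : HD F fun t => F t * A t) (hF0 : F 0 = MT.ex d ℓ₀) (k : ℕ) :
    ∃ Z Z' : ℝ → Matrix B B ℂ, HD Z Z' ∧ Z 0 = ℓ₀ ∧ (∀ t ∈ Icc (0 : ℝ) 1, Z t ∈ nn N ∧ Z' t ∈ nn N ∧
      MT.ex d (-Z t) * F t - 1 ∈ Ge d (k + 1)) := by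
  induction k with
  | zero =>
    refine ⟨fun _ => ℓ₀, fun _ => 0, HD.const ℓ₀, rfl, fun t ht => ⟨hℓ₀, (nn N).zero_mem, ?_⟩⟩
    set G : ℝ → Matrix B B ℂ := fun t => MT.ex d (-ℓ₀) * F t with hG
    have h1 : HD G fun t => G t * A t := by
      have h2 := (HD.const (MT.ex d (-ℓ₀))).mul hF
      intro t ht b b'
      have h3 := h2 t ht b b'
      refine h3.congr_deriv ?_
      rw [hG]
      simp only
      rw [Matrix.zero_mul, zero_add, Matrix.mul_assoc]
    have hG0 : G 0 = 1 := by
      have h2 := ex_mul_neg (d := d) ((Ge d 1).neg_mem (nn_Ge hN hℓ₀))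
      rw [neg_neg] at h2
      rw [hG]
      simp only
      rw [hF0, h2]
    -- entries
    have key : ∀ (n : ℕ) (b b' : B), d b' = n → d b' ≤ d b → ∀ t ∈ Icc (0 : ℝ) 1, G t b b' = (1 : Matrix B B ℂ) b b' := by
      intro n
      induction n using Nat.strong_induction_on with
      | _ n ih =>
        intro b b' h2 h3 t ht
        have h4 : ∀ t ∈ Icc (0 : ℝ) 1, HasDerivWithinAt (fun t => G t b b') 0 (Icc 0 1) t := by
          intro t ht
          refine (h1 t ht b b').congr_deriv ?_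
          change (G t * A t) b b' = 0
          rw [Matrix.mul_apply]
          refine Finset.sum_eq_zero fun c _ => ?_
          rcases lt_or_ge (d b') (d c + 1) with h5 | h5
          · rw [nn_Ge hN (hA t ht) c b' h5, mul_zero]
          · rw [ih (d c) (by omega) b c rfl (by omega) t ht, Matrix.one_apply_ne, zero_mul]
            rintro rfl
            omega
        rw [const_of_zero' h4 ht, hG0]
    intro b b' h
    rw [Matrix.sub_apply]
    have h2 := key (d b') b b' rfl (by omega) t ht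
    rw [← h2]
    exact sub_self _
  | succ k ih =>
    obtain ⟨Z, Z', h1, h2, h3⟩ := ih
    set W : ℝ → Matrix B B ℂ := fun t => MT.ex d (-Z t) * F t with hW
    set W' : ℝ → Matrix B B ℂ := fun t => dx d (-Z t) (-Z' t) * F t + MT.ex d (-Z t) * (F t * A t) with hW'
    have h4 : HD W W' := h1.neg.ex.mul hF
    set V : ℝ → Matrix B B ℂ := fun t => dx d (-Z t) (-Z' t) * MT.ex d (Z t) with hV
    have hVm : ∀ t ∈ Icc (0 : ℝ) 1, V t ∈ nn N := by
      intro t ht
      have h5 := dx_mem hN ((nn N).neg_mem (h3 t ht).1) ((nn N).neg_mem (h3 t ht).2.1)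
      rw [neg_neg] at h5
      exact h5
    have h5 : ∀ t ∈ Icc (0 : ℝ) 1, W' t = V t * W t + W t * A t := by
      intro t ht
      simp only [hW', hV, hW]
      congr 1
      · have h6 : dx d (-Z t) (-Z' t) * MT.ex d (Z t) * (MT.ex d (-Z t) * F t) =
            dx d (-Z t) (-Z' t) * (MT.ex d (Z t) * MT.ex d (-Z t)) * F t := by
          simp only [Matrix.mul_assoc]
        rw [h6, ex_mul_neg (nn_Ge hN (h3 t ht).1), Matrix.mul_one]
      · rw [Matrix.mul_assoc]
    have h6 : ∀ t ∈ Icc (0 : ℝ) 1, W' t - (V t + A t) ∈ Ge d (k + 1 + 1) := by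
      intro t ht
      rw [h5 t ht]
      have h7 := Ge_mul (nn_Ge hN (hVm t ht)) (h3 t ht).2.2
      have h8 := Ge_mul (h3 t ht).2.2 (nn_Ge hN (hA t ht))
      rw [add_comm 1 (k + 1)] at h7
      refine (congrArg (· ∈ Ge d (k + 1 + 1)) ?_).mp ((Ge d _).add_mem h7 h8)
      simp only [Matrix.mul_sub, Matrix.sub_mul, Matrix.mul_one, Matrix.one_mul, hW]
      abel
    have h7 : ∀ t ∈ Icc (0 : ℝ) 1, pr d (k + 1) (W' t) ∈ qq N k := by
      intro t ht
      have h8 := pr_eq_zero (h6 t ht)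
      rw [map_sub, sub_eq_zero] at h8
      rw [h8]
      exact nn_pr hN k ((nn N).add_mem (hVm t ht) (hA t ht))
    have hW0 : W 0 = 1 := by
      have h8 := ex_mul_neg (d := d) ((Ge d 1).neg_mem (nn_Ge hN hℓ₀))
      rw [neg_neg] at h8
      simp only [hW]
      rw [h2, hF0, h8]
    have hpr1 : pr d (k + 1) (1 : Matrix B B ℂ) = 0 := by
      ext b b'
      rw [pr_apply]
      split_ifs with h8
      · rw [Matrix.one_apply_ne]
        · rfl
        · rintro rfl
          omega
      · rfl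
    have h8 : ∀ t ∈ Icc (0 : ℝ) 1, pr d (k + 1) (W t) ∈ qq N k := by
      intro t ht
      refine (h4.pr (d := d) (k + 1)).mem (qq N k) h7 ?_ ht
      rw [hW0, hpr1]
      exact (qq N k).zero_mem
    refine ⟨fun t => Z t + pr d (k + 1) (W t), fun t => Z' t + pr d (k + 1) (W' t), h1.add (h4.pr (k + 1)), ?_,
      fun t ht => ⟨(nn N).add_mem (h3 t ht).1 (qq_le k (h8 t ht)), (nn N).add_mem (h3 t ht).2.1 (qq_le k (h7 t ht)), ?_⟩⟩
    · change Z 0 + pr d (k + 1) (W 0) = ℓ₀
      rw [hW0, hpr1, add_zero, h2]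
    · -- the exponential of a sum
      set r : Matrix B B ℂ := pr d (k + 1) (W t) with hr
      have hr1 : r ∈ Ge d (k + 1) := qq_Ge hN k (h8 t ht)
      have hZ1 := nn_Ge hN (h3 t ht).1
      have h9 : MT.ex d (-(Z t + r)) - MT.ex d (-Z t) + r ∈ Ge d (k + 1 + 1) := by
        have hpow : ∀ n : ℕ, (-(Z t + r)) ^ n - (-Z t) ^ n + (if n = 1 then r else 0) ∈ Ge d (k + 1 + 1) := by
          intro n
          induction n with
          | zero =>
            rw [pow_zero, pow_zero, sub_self, if_neg (by omega), add_zero]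
            exact (Ge d _).zero_mem
          | succ n ih =>
            rcases n with _ | n
            · rw [zero_add, pow_one, pow_one, if_pos rfl]
              have h10 : -(Z t + r) - -Z t + r = 0 := by abel
              rw [h10]
              exact (Ge d _).zero_mem
            · rw [if_neg (by omega), add_zero]
              have h10 : (-(Z t + r)) ^ (n + 1 + 1) - (-Z t) ^ (n + 1 + 1) =
                  ((-(Z t + r)) ^ (n + 1) - (-Z t) ^ (n + 1)) * (-(Z t + r)) - (-Z t) ^ (n + 1) * r := by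
                rw [pow_succ _ (n + 1), pow_succ (-Z t) (n + 1)]
                simp only [Matrix.mul_add, Matrix.mul_neg, Matrix.sub_mul, neg_add, mul_neg, mul_add]
                abel
              rw [h10]
              have h11 : (-(Z t + r)) ^ (n + 1) - (-Z t) ^ (n + 1) ∈ Ge d (k + 1) := by
                have h12 := (Ge d (k + 1)).sub_mem (Ge_mono (Nat.le_succ _) ih) (show (if n + 1 = 1 then r else 0) ∈
                  Ge d (k + 1) by
                    split_ifs
                    · exact hr1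
                    · exact (Ge d _).zero_mem)
                rwa [add_sub_cancel_right] at h12
              refine (Ge d _).sub_mem ?_ ?_
              · exact Ge_mul h11 ((Ge d 1).neg_mem ((Ge d 1).add_mem hZ1 (Ge_mono (by omega) hr1)))
              · have h12 := Ge_mul (Ge_pow ((Ge d 1).neg_mem hZ1) (n + 1)) hr1
                exact Ge_mono (by rw [mul_one]; omega) h12
        have hee : ∀ n : ℕ, MT.ee (-(Z t + r)) n - MT.ee (-Z t) n + (if n = 1 then r else 0) ∈ Ge d (k + 1 + 1) := by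
          intro n
          have h10 := (Ge d (k + 1 + 1)).smul_mem ((n.factorial : ℂ))⁻¹ (hpow n)
          refine (congrArg (· ∈ Ge d (k + 1 + 1)) ?_).mp h10
          unfold MT.ee
          rw [smul_add, smul_sub]
          congr 1
          split_ifs with h11
          · rw [h11, Nat.factorial_one, Nat.cast_one, inv_one, one_smul]
          · rw [smul_zero]
        have h10 := (Ge d (k + 1 + 1)).sum_mem (t := Finset.range (top d)) fun n _ => hee n
        rw [Finset.sum_add_distrib, Finset.sum_sub_distrib, Finset.sum_ite_eq'] at h10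
        by_cases h11 : 1 ∈ Finset.range (top d)
        · rw [if_pos h11] at h10
          exact h10
        · rw [if_neg h11, add_zero] at h10
          have h12 : r = 0 := Ge_top (d := d) (k := k + 1) (by
            rw [Finset.mem_range] at h11
            omega) hr1
          rw [h12] at h10 ⊢
          simp only [add_zero] at h10 ⊢
          exact h10
      have h10 : W t - 1 - r ∈ Ge d (k + 1 + 1) := by
        have h11 := sub_pr (h3 t ht).2.2
        rw [map_sub, hpr1, sub_zero] at h11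
        exact h11
      have hF1 : F t - 1 ∈ Ge d 1 := by
        have h11 : F t = MT.ex d (Z t) * W t := by
          simp only [hW]
          rw [← Matrix.mul_assoc, ex_mul_neg hZ1, Matrix.one_mul]
        have h12 : F t - 1 = (MT.ex d (Z t) - 1) * W t + (W t - 1) := by
          rw [h11]
          simp only [Matrix.sub_mul, Matrix.one_mul]
          abel
        have h13 : W t ∈ Ge d 0 := by
          have h14 := (Ge d 0).add_mem (Ge_mono (Nat.zero_le _) (h3 t ht).2.2) Ge_one
          rwa [sub_add_cancel] at h14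
        rw [h12]
        refine (Ge d 1).add_mem ?_ (Ge_mono (by omega) (h3 t ht).2.2)
        exact Ge_mul (ex_one hZ1) h13
      have h11 : (MT.ex d (-(Z t + r)) - MT.ex d (-Z t) + r) * F t ∈ Ge d (k + 1 + 1) := by
        have h12 : F t ∈ Ge d 0 := by
          have h14 := (Ge d 0).add_mem (Ge_mono (Nat.zero_le _) hF1) Ge_one
          rwa [sub_add_cancel] at h14
        have h13 := Ge_mul h9 h12
        rwa [add_zero] at h13
      have h12 : r * (F t - 1) ∈ Ge d (k + 1 + 1) := Ge_mul hr1 hF1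
      refine (congrArg (· ∈ Ge d (k + 1 + 1)) ?_).mp ((Ge d _).add_mem ((Ge d _).sub_mem h11 h12) h10)
      simp only [hW, Matrix.sub_mul, Matrix.add_mul, Matrix.mul_sub, Matrix.mul_one]
      abel

/-- **Solutions are exponentials.** -/
theorem sol_exp [Fintype S] (hN : Deg1 d N) {F : ℝ → Matrix B B ℂ} {c f : S → ℝ → ℂ} {ℓ₀ : Matrix B B ℂ}
    (hℓ₀ : ℓ₀ ∈ nn N) (hℓ₁ : ℓ₀ - ∑ s, f s 0 • N s ∈ Ge d 2)
    (hf : ∀ s, ∀ t ∈ Icc (0 : ℝ) 1, HasDerivWithinAt (f s) (c s t) (Icc 0 1) t)
    (hF : HD F fun t => F t * ∑ s, c s t • N s) (hF0 : F 0 = MT.ex d ℓ₀) :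
    ∃ ell ∈ nn N, F 1 = MT.ex d ell ∧ ell - ∑ s, f s 1 • N s ∈ Ge d 2 := by
  have hNs : ∀ s, N s ∈ nn N := fun s => qq_le 0 (Submodule.subset_span ⟨s, rfl⟩)
  have hA : ∀ t ∈ Icc (0 : ℝ) 1, ∑ s, c s t • N s ∈ nn N := fun t _ =>
    (nn N).sum_mem fun s _ => (nn N).smul_mem _ (hNs s)
  obtain ⟨Z, Z', h1, h2, h3⟩ := approxODE hN hℓ₀ hA hF hF0 (top d)
  have h4 : ∀ t ∈ Icc (0 : ℝ) 1, F t = MT.ex d (Z t) := by
    intro t ht
    have h5 := Ge_top (by omega) (h3 t ht).2.2
    rw [sub_eq_zero] at h5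
    have h6 : F t = MT.ex d (Z t) * (MT.ex d (-Z t) * F t) := by
      rw [← Matrix.mul_assoc, ex_mul_neg (nn_Ge hN (h3 t ht).1), Matrix.one_mul]
    rw [h6, h5, Matrix.mul_one]
  have h11 : (1 : ℝ) ∈ Icc (0 : ℝ) 1 := right_mem_Icc.2 zero_le_one
  have h00 : (0 : ℝ) ∈ Icc (0 : ℝ) 1 := left_mem_Icc.2 zero_le_one
  refine ⟨Z 1, (h3 1 h11).1, h4 1 h11, ?_⟩
  -- the component of degree one
  have hex : ∀ X ∈ Ge d 1, MT.ex d X - 1 - X ∈ Ge d 2 := by
    intro X hX
    have h5 : ∀ n : ℕ, MT.ee X n - (if n = 0 then 1 else 0) - (if n = 1 then X else 0) ∈ Ge d 2 := by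
      intro n
      rcases n with _ | _ | n
      · rw [if_pos rfl, if_neg (by omega), ee_zero, sub_self, sub_zero]
        exact (Ge d 2).zero_mem
      · rw [if_neg (by omega), zero_add, if_pos rfl, sub_zero]
        have h6 : MT.ee X 1 = X := by
          unfold MT.ee
          rw [Nat.factorial_one, Nat.cast_one, inv_one, one_smul, pow_one]
        rw [h6, sub_self]
        exact (Ge d 2).zero_mem
      · rw [if_neg (by omega), if_neg (by omega), sub_zero, sub_zero]
        unfold MT.ee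
        exact (Ge d 2).smul_mem _ (Ge_mono (by rw [mul_one]; omega) (Ge_pow hX (n + 1 + 1)))
    have h6 := (Ge d 2).sum_mem (t := Finset.range (top d)) fun n _ => h5 n
    have h0m : 0 ∈ Finset.range (top d) := Finset.mem_range.2 (Nat.succ_pos _)
    rw [Finset.sum_sub_distrib, Finset.sum_sub_distrib, Finset.sum_ite_eq', Finset.sum_ite_eq', if_pos h0m] at h6
    by_cases h7 : 1 ∈ Finset.range (top d)
    · rw [if_pos h7] at h6
      exact h6
    · rw [if_neg h7, sub_zero] at h6
      have h8 : X = 0 := Ge_top (d := d) (k := 1) (by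
        rw [Finset.mem_range] at h7
        omega) hX
      rw [h8] at h6 ⊢
      rw [sub_zero]
      exact h6
  have h5 : ∀ t ∈ Icc (0 : ℝ) 1, pr d 1 (F t) - ∑ s, f s t • pr d 1 (N s) = 0 := by
    intro t ht
    have h6 : HD (fun t => pr d 1 (F t) - ∑ s, f s t • pr d 1 (N s))
        (fun t => pr d 1 (F t * ∑ s, c s t • N s) - ∑ s, c s t • pr d 1 (N s)) := by
      intro t ht b b'
      have h7 := (hF.pr (d := d) 1) t ht b b'
      have h8 := HasDerivWithinAt.fun_sum (u := (Finset.univ : Finset S)) (fun s _ =>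
        (hf s t ht).mul_const (pr d 1 (N s) b b'))
      have h9 := h7.sub h8
      refine (h9.congr_deriv ?_).congr_of_eventuallyEq ?_ ?_
      · change _ = (pr d 1 (F t * ∑ s, c s t • N s) - ∑ s, c s t • pr d 1 (N s)) b b'
        rw [Matrix.sub_apply, Matrix.sum_apply]
        rfl
      · refine Filter.Eventually.of_forall fun t => ?_
        simp only [Matrix.sub_apply, Matrix.sum_apply, Matrix.smul_apply, smul_eq_mul, Pi.sub_apply]
      · simp only [Matrix.sub_apply, Matrix.sum_apply, Matrix.smul_apply, smul_eq_mul, Pi.sub_apply]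
    have h7 := h6.mem ⊥ (fun t ht => by
      rw [Submodule.mem_bot]
      have h8 : F t * ∑ s, c s t • N s - ∑ s, c s t • N s ∈ Ge d 2 := by
        have h9 : F t * ∑ s, c s t • N s - ∑ s, c s t • N s = (F t - 1) * ∑ s, c s t • N s := by
          rw [Matrix.sub_mul, Matrix.one_mul]
        rw [h9, h4 t ht]
        exact Ge_mul (ex_one (nn_Ge hN (h3 t ht).1)) (nn_Ge hN (hA t ht))
      have h9 := pr_eq_zero h8
      rw [map_sub, map_sum] at h9
      simpa only [map_smul] using h9) (by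
      rw [Submodule.mem_bot]
      have h8 : F 0 - 1 - ∑ s, f s 0 • N s ∈ Ge d 2 := by
        have h9 := (Ge d 2).add_mem (hex _ (nn_Ge hN hℓ₀)) hℓ₁
        rw [hF0]
        rwa [sub_add_sub_cancel] at h9
      have h9 := pr_eq_zero h8
      have hpr1 : pr d 1 (1 : Matrix B B ℂ) = 0 := by
        ext b b'
        rw [pr_apply]
        split_ifs with h8
        · rw [Matrix.one_apply_ne]
          · rfl
          · rintro rfl
            omega
        · rfl
      rw [map_sub, map_sub, map_sum, hpr1, sub_zero] at h9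
      simpa only [map_smul] using h9) ht
    exact (Submodule.mem_bot ℂ).1 h7
  have h6 : Z 1 - ∑ s, f s 1 • N s ∈ Ge d 1 := (nn_Ge hN ((nn N).sub_mem (h3 1 h11).1
    ((nn N).sum_mem fun s _ => (nn N).smul_mem _ (hNs s))))
  have h7 : pr d 1 (Z 1 - ∑ s, f s 1 • N s) = 0 := by
    have h8 := hex _ (nn_Ge hN (h3 1 h11).1)
    rw [← h4 1 h11] at h8
    have h9 := pr_eq_zero h8
    have hpr1 : pr d 1 (1 : Matrix B B ℂ) = 0 := by
      ext b b'
      rw [pr_apply]
      split_ifs with h8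
      · rw [Matrix.one_apply_ne]
        · rfl
        · rintro rfl
          omega
      · rfl
    rw [map_sub, map_sub, hpr1, sub_zero, sub_eq_zero] at h9
    have h10 := h5 1 h11
    rw [h9] at h10
    rw [map_sub, map_sum]
    simpa only [map_smul] using h10
  have h8 := sub_pr h6
  rw [h7, sub_zero] at h8
  exact h8

end Pool.Agent.X306.MT
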